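import Pool.Agent.Helper85_ABCT.Spec

/-!
# ADVR (MP_a17fcb_ag): the local ring along a divisor in adapted coordinates
-/

open MvPolynomial Topology

namespace PosGeom.H85

section

variable {ι : Type} [Fintype ι] {d : ℕ} {V C : PVar ι} {y : Fin (d + 1) → V.K} {y' : Fin d → C.K}

theorem sp (hA : V.I ≤ C.I) :
    (∀ f a b, V.SpecTo C.gen f a → V.SpecTo C.gen f b → a = b) ∧
    (∀ c : ℂ, V.SpecTo C.gen (algebraMap ℂ V.K c) (algebraMap ℂ C.Frac c)) ∧
    (∀ f g a b, V.SpecTo C.gen f a → V.SpecTo C.gen g b → V.SpecTo C.gen (f + g) (a + b)) ∧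
    (∀ f g a b, V.SpecTo C.gen f a → V.SpecTo C.gen g b → V.SpecTo C.gen (f * g) (a * b)) ∧
    (∀ f a, V.SpecTo C.gen f a → V.SpecTo C.gen (-f) (-a)) ∧
    (∀ f a, V.SpecTo C.gen f a → a ≠ 0 → V.SpecTo C.gen f⁻¹ a⁻¹) := by
  obtain ⟨h1, h2, h3, h4, h5, h6, -, -⟩ := spec ι V C.Frac C.gen
    (fun F hF => (aeval_gen_eq_zero C F).2 (hA hF)) (gen_ne_zero C)
  exact ⟨h1, h2, h3, h4, h5, h6⟩

/-- values of polynomials in `y` -/
theorem sp_poly (hA : Adapted V C y y') (P : MvPolynomial (Fin (d + 1)) ℂ) :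
    V.SpecTo C.gen (aeval y P)
      (aeval (Fin.cons 0 (fun j => (y' j : C.Frac)) : Fin (d + 1) → C.Frac) P) := by
  obtain ⟨h1, h2, h3, h4, h5, h6⟩ := sp hA.sub
  induction P using MvPolynomial.induction_on with
  | C a => rw [aeval_C, aeval_C]; exact h2 a
  | add p q hp hq => rw [map_add, map_add]; exact h3 _ _ _ _ hp hq
  | mul_X p i hp =>
    rw [map_mul, map_mul, aeval_X, aeval_X]
    refine h4 _ _ _ _ hp ?_
    refine Fin.cases ?_ (fun j => ?_) i
    · rw [Fin.cons_zero]; exact hA.z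
    · rw [Fin.cons_succ]; exact hA.s j

/-- the restriction of polynomials to `Y_0 = 0` -/
noncomputable def res0 (d : ℕ) : MvPolynomial (Fin (d + 1)) ℂ →ₐ[ℂ] MvPolynomial (Fin d) ℂ :=
  aeval (Fin.cons 0 X : Fin (d + 1) → MvPolynomial (Fin d) ℂ)

theorem res0_dvd (P : MvPolynomial (Fin (d + 1)) ℂ) :
    X 0 ∣ P - rename Fin.succ (res0 d P) := by
  induction P using MvPolynomial.induction_on with
  | C a => simp [res0]
  | add p q hp hq =>
    rw [map_add, map_add]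
    have h := dvd_add hp hq
    convert h using 1
    ring
  | mul_X p i hp =>
    rw [map_mul, map_mul]
    refine Fin.cases ?_ (fun j => ?_) i
    · have : res0 d (X 0) = 0 := by simp [res0]
      rw [this, map_zero, mul_zero, sub_zero]
      exact Dvd.intro_left p rfl
    · have : res0 d (X j.succ) = X j := by simp [res0]
      rw [this, rename_X]
      have h := hp.mul_right (X j.succ)
      convert h using 1
      ring

theorem res0_eq_zero {P : MvPolynomial (Fin (d + 1)) ℂ} (h : res0 d P = 0) : X 0 ∣ P := by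
  have hsub := res0_dvd P
  rw [h, map_zero, sub_zero] at hsub
  exact hsub

theorem aeval_res0 {L : Type} [Field L] [Algebra ℂ L] (z : Fin d → L)
    (P : MvPolynomial (Fin (d + 1)) ℂ) :
    aeval (Fin.cons 0 z : Fin (d + 1) → L) P = aeval z (res0 d P) := by
  unfold res0
  rw [← AlgHom.comp_apply, comp_aeval]
  congr 2
  funext i
  refine Fin.cases ?_ (fun j => ?_) i
  · rw [Fin.cons_zero, Fin.cons_zero, map_zero]
  · rw [Fin.cons_succ, Fin.cons_succ, aeval_X]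

omit [Fintype ι] in
theorem aeval_coe {V : PVar ι} (y : Fin d → V.K) (P : MvPolynomial (Fin d) ℂ) :
    aeval (fun j => (y j : V.Frac)) P = ((aeval y P : V.K) : V.Frac) := by
  have : (aeval (fun j => (y j : V.Frac)) : MvPolynomial (Fin d) ℂ →ₐ[ℂ] V.Frac) =
      V.K.val.comp (aeval y) := by
    apply MvPolynomial.algHom_ext
    intro i
    rw [aeval_X, AlgHom.comp_apply, aeval_X]
    rfl
  rw [this]
  rfl

/-- a polynomial not divisible by `Y_0` is a unit along `C` -/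
theorem sp_unit (hA : Adapted V C y y') (P : MvPolynomial (Fin (d + 1)) ℂ) (hP : ¬ X 0 ∣ P) :
    ∃ a : C.Frac, a ≠ 0 ∧ V.SpecTo C.gen (aeval y P) a := by
  refine ⟨_, ?_, sp_poly hA P⟩
  rw [aeval_res0, aeval_coe]
  intro h
  have h1 : aeval y' (res0 d P) = 0 := by
    apply Subtype.ext
    exact h
  have h2 := (algebraicIndependent_iff.1 hA.cC.ind) _ h1
  exact hP (res0_eq_zero h2)

/-- quotients of polynomials -/
theorem exists_quot {K : Type} [Field K] [Algebra ℂ K] {n : ℕ} {y : Fin n → K} (hy : IsCoord y)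
    (f : K) (hf : f ≠ 0) : ∃ P Q : MvPolynomial (Fin n) ℂ, P ≠ 0 ∧ Q ≠ 0 ∧
      f = aeval y P / aeval y Q := by
  have h : f ∈ IntermediateField.adjoin ℂ (Set.range y) := by
    rw [hy.gen]; exact IntermediateField.mem_top
  rw [IntermediateField.mem_adjoin_range_iff] at h
  obtain ⟨P, Q, h⟩ := h
  refine ⟨P, Q, ?_, ?_, h⟩
  · rintro rfl
    rw [map_zero, zero_div] at h
    exact hf h
  · rintro rfl
    rw [map_zero, div_zero] at h
    exact hf h

theorem split_X {n : ℕ} (P : MvPolynomial (Fin (n + 1)) ℂ) (hP : P ≠ 0) :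
    ∃ (k : ℕ) (Q : MvPolynomial (Fin (n + 1)) ℂ), ¬ X 0 ∣ Q ∧ P = X 0 ^ k * Q :=
  WfDvdMonoid.max_power_factor hP (X_prime (R := ℂ)).irreducible

omit [Fintype ι] in
theorem y0_ne (hA : Adapted V C y y') : y 0 ≠ 0 := hA.cV.ind.ne_zero 0

/-- the decomposition of functions -/
theorem decomp (hA : Adapted V C y y') (f : V.K) (hf : f ≠ 0) :
    ∃ (n : ℤ) (u : V.K) (a : C.Frac), a ≠ 0 ∧ V.SpecTo C.gen u a ∧ f = y 0 ^ n * u := by
  obtain ⟨h1, h2, h3, h4, h5, h6⟩ := sp hA.sub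
  obtain ⟨P, Q, hP, hQ, hfq⟩ := exists_quot hA.cV f hf
  obtain ⟨k, P1, hP1, hP2⟩ := split_X P hP
  obtain ⟨l, Q1, hQ1, hQ2⟩ := split_X Q hQ
  obtain ⟨a, ha, hsa⟩ := sp_unit hA P1 hP1
  obtain ⟨b, hb, hsb⟩ := sp_unit hA Q1 hQ1
  refine ⟨(k : ℤ) - l, aeval y P1 * (aeval y Q1)⁻¹, a * b⁻¹, mul_ne_zero ha (inv_ne_zero hb),
    h4 _ _ _ _ hsa (h6 _ _ hsb hb), ?_⟩
  rw [hfq, hP2, hQ2, map_mul, map_mul, map_pow, map_pow, aeval_X, zpow_sub₀ (y0_ne hA),
    zpow_natCast, zpow_natCast, div_eq_mul_inv, mul_inv, div_eq_mul_inv]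
  ring

theorem sp_zpow (hA : Adapted V C y y') {n : ℤ} (hn : 0 < n) : V.SpecTo C.gen (y 0 ^ n) 0 := by
  obtain ⟨h1, h2, h3, h4, h5, h6⟩ := sp hA.sub
  have key : ∀ k : ℕ, V.SpecTo C.gen (y 0 ^ (k + 1)) 0 := by
    intro k
    induction k with
    | zero => rw [zero_add, pow_one]; exact hA.z
    | succ k ih =>
      rw [pow_succ]
      have := h4 _ _ _ _ ih hA.z
      rwa [mul_zero] at this
  obtain ⟨k, rfl⟩ : ∃ k : ℕ, n = ((k + 1 : ℕ) : ℤ) := ⟨(n - 1).toNat, by omega⟩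
  rw [zpow_natCast]
  exact key k

theorem sp_one (hA : Adapted V C y y') : V.SpecTo C.gen 1 1 := by
  obtain ⟨h1, h2, -⟩ := sp hA.sub
  have := h2 1
  rwa [map_one, map_one] at this

theorem sp_zero (hA : Adapted V C y y') : V.SpecTo C.gen 0 0 := by
  obtain ⟨h1, h2, -⟩ := sp hA.sub
  have := h2 0
  rwa [map_zero, map_zero] at this

/-- regular iff the exponent is nonnegative -/
theorem reg_iff (hA : Adapted V C y y') {n : ℤ} {u : V.K} {a : C.Frac} (ha : a ≠ 0)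
    (hu : V.SpecTo C.gen u a) :
    ((∃ b : C.Frac, V.SpecTo C.gen (y 0 ^ n * u) b) ↔ 0 ≤ n) ∧
    (V.SpecTo C.gen (y 0 ^ n * u) 0 ↔ 0 < n) := by
  obtain ⟨h1, h2, h3, h4, h5, h6⟩ := sp hA.sub
  have hu0 : u ≠ 0 := by
    rintro rfl
    exact ha (h1 _ _ _ hu (sp_zero hA))
  have hpos : 0 < n → V.SpecTo C.gen (y 0 ^ n * u) 0 := by
    intro hn
    have := h4 _ _ _ _ (sp_zpow hA hn) hu
    rwa [zero_mul] at this
  have hneg : n < 0 → ¬ ∃ b : C.Frac, V.SpecTo C.gen (y 0 ^ n * u) b := by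
    rintro hn ⟨b, hb⟩
    have h7 := h4 _ _ _ _ hb (sp_zpow hA (n := -n) (by omega))
    rw [mul_zero] at h7
    have h8 : y 0 ^ n * u * y 0 ^ (-n) = u := by
      rw [mul_right_comm, ← zpow_add₀ (y0_ne hA), add_neg_cancel, zpow_zero, one_mul]
    rw [h8] at h7
    exact ha (h1 _ _ _ hu h7)
  constructor
  · constructor
    · intro h
      by_contra hn
      exact hneg (by omega) h
    · intro hn
      rcases hn.lt_or_eq with h | h
      · exact ⟨0, hpos h⟩
      · subst h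
        rw [zpow_zero, one_mul]
        exact ⟨a, hu⟩
  · constructor
    · intro h
      rcases lt_trichotomy n 0 with hn | hn | hn
      · exact absurd ⟨0, h⟩ (hneg hn)
      · subst hn
        rw [zpow_zero, one_mul] at h
        exact absurd (h1 _ _ _ hu h) ha
      · exact hn
    · exact hpos

/-- the valuation ring -/
noncomputable def OC (hA : Adapted V C y y') : ValuationSubring V.K where
  carrier := {f | ∃ a : C.Frac, V.SpecTo C.gen f a}
  mul_mem' := by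
    rintro f g ⟨a, ha⟩ ⟨b, hb⟩
    exact ⟨_, (sp hA.sub).2.2.2.1 _ _ _ _ ha hb⟩
  one_mem' := ⟨1, sp_one hA⟩
  add_mem' := by
    rintro f g ⟨a, ha⟩ ⟨b, hb⟩
    exact ⟨_, (sp hA.sub).2.2.1 _ _ _ _ ha hb⟩
  zero_mem' := ⟨0, sp_zero hA⟩
  neg_mem' := by
    rintro f ⟨a, ha⟩
    exact ⟨_, (sp hA.sub).2.2.2.2.1 _ _ ha⟩
  mem_or_inv_mem' := by
    intro f
    by_cases hf : f = 0
    · subst hf
      exact Or.inl ⟨0, sp_zero hA⟩
    obtain ⟨n, u, a, ha, hu, rfl⟩ := decomp hA f hf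
    rcases le_total 0 n with hn | hn
    · exact Or.inl ((reg_iff hA ha hu).1.2 hn)
    · refine Or.inr ?_
      have h := (reg_iff hA (n := -n) (inv_ne_zero ha) ((sp hA.sub).2.2.2.2.2 _ _ hu ha)).1.2
        (by omega)
      rw [zpow_neg, ← mul_inv] at h
      exact h

theorem mem_OC (hA : Adapted V C y y') (f : V.K) :
    f ∈ OC hA ↔ ∃ a : C.Frac, V.SpecTo C.gen f a := Iff.rfl

theorem val_OC (hA : Adapted V C y y') (f : V.K) :
    (OC hA).valuation f < 1 ↔ V.SpecTo C.gen f 0 := by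
  by_cases hf : f = 0
  · subst hf
    rw [map_zero]
    exact ⟨fun _ => sp_zero hA, fun _ => zero_lt_one⟩
  have h1 : (OC hA).valuation f < 1 ↔ ¬ (f⁻¹ ∈ OC hA) := by
    rw [← (OC hA).valuation_le_one_iff, not_le,
      (OC hA).valuation.one_lt_val_iff (inv_ne_zero hf), inv_inv]
  rw [h1, mem_OC]
  obtain ⟨n, u, a, ha, hu, rfl⟩ := decomp hA f hf
  have h := (reg_iff hA (n := -n) (inv_ne_zero ha) ((sp hA.sub).2.2.2.2.2 _ _ hu ha)).1
  rw [zpow_neg, ← mul_inv] at h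
  rw [h, (reg_iff hA ha hu).2]
  omega

theorem isUnit_OC (hA : Adapted V C y y') {n : ℤ} {u : V.K} {a : C.Frac} (ha : a ≠ 0)
    (hu : V.SpecTo C.gen u a) (h : y 0 ^ n * u ∈ OC hA) :
    IsUnit (⟨y 0 ^ n * u, h⟩ : OC hA) ↔ n = 0 := by
  rw [ValuationSubring.valuation_eq_one_iff]
  have h0 : 0 ≤ n := (reg_iff hA ha hu).1.1 h
  have h1 := val_OC hA (y 0 ^ n * u)
  rw [(reg_iff hA ha hu).2] at h1
  have h2 : (OC hA).valuation (y 0 ^ n * u) ≤ 1 := ((OC hA).valuation_le_one_iff _).2 h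
  constructor
  · intro h3
    by_contra h4
    exact (h1.2 (by omega)).ne h3
  · intro h3
    refine le_antisymm h2 (not_lt.1 fun h4 => ?_)
    have := h1.1 h4
    omega

theorem dvr_OC (hA : Adapted V C y y') : IsDiscreteValuationRing (OC hA) := by
  apply IsDiscreteValuationRing.ofHasUnitMulPowIrreducibleFactorization
  have hy : y 0 ∈ OC hA := ⟨0, hA.z⟩
  have hy1 : y 0 = y 0 ^ (1 : ℤ) * 1 := by rw [zpow_one, mul_one]
  refine ⟨⟨y 0, hy⟩, ?_, ?_⟩
  · rw [irreducible_iff]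
    constructor
    · intro h
      rw [ValuationSubring.valuation_eq_one_iff] at h
      exact ((val_OC hA (y 0)).2 hA.z).ne h
    · rintro ⟨f, hf⟩ ⟨g, hg⟩ hfg
      have hfg' : y 0 = f * g := congrArg Subtype.val hfg
      have hf0 : f ≠ 0 := by
        rintro rfl
        rw [zero_mul] at hfg'
        exact y0_ne hA hfg'
      have hg0 : g ≠ 0 := by
        rintro rfl
        rw [mul_zero] at hfg'
        exact y0_ne hA hfg'
      obtain ⟨n, u, a, ha, hu, rfl⟩ := decomp hA f hf0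
      obtain ⟨m, v, b, hb, hv, rfl⟩ := decomp hA g hg0
      have hn : 0 ≤ n := (reg_iff hA ha hu).1.1 hf
      have hm : 0 ≤ m := (reg_iff hA hb hv).1.1 hg
      have huv := (sp hA.sub).2.2.2.1 _ _ _ _ hu hv
      have h1 : y 0 ^ (n + m - 1) * (u * v) = 1 := by
        have h2 : y 0 ^ (n + m - 1) * (u * v) = (y 0 ^ n * u * (y 0 ^ m * v)) * (y 0)⁻¹ := by
          rw [zpow_sub₀ (y0_ne hA), zpow_add₀ (y0_ne hA), zpow_one, div_eq_mul_inv]
          ring
        rw [h2, ← hfg', mul_inv_cancel₀ (y0_ne hA)]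
      have h3 := (reg_iff hA (n := n + m - 1) (mul_ne_zero ha hb) huv)
      rw [h1] at h3
      have h4 := h3.1.1 ⟨1, sp_one hA⟩
      have h5 : ¬ 0 < n + m - 1 := by
        intro h5
        have := (sp hA.sub).1 _ _ _ (h3.2.2 h5) (sp_one hA)
        exact zero_ne_one this
      rw [isUnit_OC hA ha hu hf, isUnit_OC hA hb hv hg]
      omega
  · rintro ⟨f, hf⟩ hfne
    have hf0 : f ≠ 0 := fun h => hfne (Subtype.ext h)
    obtain ⟨n, u, a, ha, hu, rfl⟩ := decomp hA f hf0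
    have hn : 0 ≤ n := (reg_iff hA ha hu).1.1 hf
    obtain ⟨k, rfl⟩ : ∃ k : ℕ, n = k := ⟨n.toNat, by omega⟩
    have huO : u ∈ OC hA := ⟨a, hu⟩
    have huu : IsUnit (⟨u, huO⟩ : OC hA) := by
      have h := isUnit_OC hA (n := 0) ha hu (by rw [zpow_zero, one_mul]; exact huO)
      have h' := h.2 rfl
      convert h' using 2
      rw [zpow_zero, one_mul]
    refine ⟨k, huu.unit, ?_⟩
    apply Subtype.ext
    show y 0 ^ k * u = y 0 ^ (k : ℤ) * u
    rw [zpow_natCast]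

end

theorem advr : AdvrStmt := by
  intro ι _ d V C y y' hA
  obtain ⟨h1, h2, h3, h4, h5, h6⟩ := sp hA.sub
  have hdom : Dominates V C (OC hA) := by
    intro f a ha
    refine ⟨⟨a, ha⟩, ?_⟩
    rintro rfl
    exact (val_OC hA f).2 ha
  refine ⟨OC hA, dvr_OC hA, fun f => Iff.rfl, val_OC hA, ?_, hdom, ?_⟩
  · intro f hf
    by_cases hf0 : f = 0
    · subst hf0
      exact ⟨0, 0, sp_zero hA, by rw [zero_mul]⟩
    obtain ⟨n, u, a, ha, hu, rfl⟩ := decomp hA f hf0
    have hn := (reg_iff hA ha hu).2.1 hf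
    obtain ⟨b, hb⟩ := (reg_iff hA (n := n - 1) ha hu).1.2 (by omega)
    refine ⟨y 0 ^ (n - 1) * u, b, hb, ?_⟩
    rw [zpow_sub₀ (y0_ne hA), zpow_one]
    have := y0_ne hA
    field_simp
  · intro O' _ hdom'
    apply le_antisymm
    · intro f hf
      by_cases hf0 : f = 0
      · subst hf0
        exact ⟨0, sp_zero hA⟩
      obtain ⟨n, u, a, ha, hu, rfl⟩ := decomp hA f hf0
      refine (reg_iff hA ha hu).1.2 ?_
      by_contra hn
      have hui := (hdom' _ _ (h6 _ _ hu ha)).1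
      obtain ⟨b, hb⟩ := (reg_iff hA (n := -n - 1) (u := 1) one_ne_zero (sp_one hA)).1.2 (by omega)
      have hy := (hdom' _ _ hb).1
      have h7 : (y 0)⁻¹ ∈ O' := by
        have h8 := O'.mul_mem _ _ (O'.mul_mem _ _ hf hui) hy
        have hu0 : u ≠ 0 := by
          rintro rfl
          exact ha (h1 _ _ _ hu (sp_zero hA))
        have h9 : y 0 ^ n * u * u⁻¹ * (y 0 ^ (-n - 1) * 1) = (y 0)⁻¹ := by
          rw [mul_assoc (y 0 ^ n), mul_inv_cancel₀ hu0, mul_one, mul_one,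
            ← zpow_add₀ (y0_ne hA)]
          rw [show n + (-n - 1) = -1 by ring, zpow_neg_one]
        rwa [h9] at h8
      have h10 := (hdom' _ _ hA.z).2 rfl
      have h11 : 1 < O'.valuation (y 0)⁻¹ := by
        rw [O'.valuation.one_lt_val_iff (inv_ne_zero (y0_ne hA)), inv_inv]
        exact h10
      exact absurd ((O'.valuation_le_one_iff _).2 h7) (not_le.2 h11)
    · intro f hf
      obtain ⟨a, ha⟩ := hf
      exact (hdom' _ _ ha).1

end PosGeom.H85
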