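import Pool.Agent.Helper85_ABCT.Advr

/-!
# AREG (MP_a17fcb_ag): regular forms along the divisor
-/

open MvPolynomial Topology

namespace PosGeom.H85

theorem det_mem {K : Type} [Field K] (O : ValuationSubring K) {n : ℕ} (M : Matrix (Fin n) (Fin n) K)
    (hM : ∀ i j, M i j ∈ O) : M.det ∈ O := by
  let M' : Matrix (Fin n) (Fin n) O := Matrix.of fun i j => ⟨M i j, hM i j⟩
  have h : M = M'.map (O.subtype) := by
    ext i j
    rfl
  rw [h]
  have h2 := RingHom.map_det O.subtype M'
  rw [RingHom.mapMatrix_apply] at h2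
  rw [← h2]
  exact (M'.det).2

theorem form_sum_apply {K : Type} [Field K] [Algebra ℂ K] {d m : ℕ} (w : Fin m → Form K d)
    (D : Fin d → Derivation ℂ K K) : (∑ k, w k) D = ∑ k, w k D := by
  have : ∀ s : Finset (Fin m), (∑ k ∈ s, w k) D = ∑ k ∈ s, w k D := by
    intro s
    classical
    induction s using Finset.induction_on with
    | empty => rw [Finset.sum_empty, Finset.sum_empty]; rfl
    | insert i s hi ih =>
      rw [Finset.sum_insert hi, Finset.sum_insert hi, AlternatingMap.add_apply, ih]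
  exact this Finset.univ

theorem areg (hader : AderStmt) (hfder : FderStmt) (hfone : FoneStmt) : AregStmt := by
  intro ι _ d V C y y' hA O hO hdom f
  obtain ⟨O1, hO1, hO2, hO3, hO4, hO5, hO6⟩ := advr ι d V C y y' hA
  obtain rfl := hO6 O hO hdom
  obtain ⟨s1, s2, s3, s4, s5, s6⟩ := sp hA.sub
  obtain ⟨D, hD⟩ := hfder _ _ y hA.cV
  obtain ⟨D', hD'⟩ := hfder _ _ y' hA.cC
  obtain ⟨f1, f2, f3⟩ := hfone _ _ y D hD
  have hmem : ∀ (g : V.K) (a : C.Frac), V.SpecTo C.gen g a → ∃ b : C.K, (b : C.Frac) = a := by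
    intro g a ha
    obtain ⟨-, -, -, -, -, -, -, h8⟩ := spec ι V C.Frac C.gen
      (fun F hF => (aeval_gen_eq_zero C F).2 (hA.sub hF)) (gen_ne_zero C)
    exact ⟨⟨a, h8 g a ha⟩, rfl⟩
  have hstab : ∀ (i : Fin (d + 1)) (g : V.K), g ∈ O → D i g ∈ O := by
    intro i g hg
    obtain ⟨a, ha⟩ := (hO2 g).1 hg
    obtain ⟨b, rfl⟩ := hmem g a ha
    obtain ⟨h1, h2⟩ := hader ι d V C y y' hA D D' hD hD' g b ha
    rw [hO2]
    refine Fin.cases ?_ (fun j => ?_) i
    · obtain ⟨c, hc⟩ := h1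
      exact ⟨_, hc⟩
    · exact ⟨_, h2 j⟩
  have hne : ∀ i, y i ≠ 0 := fun i => hA.cV.ind.ne_zero i
  have hne' : ∀ i, (y' i : C.Frac) ≠ 0 := fun i h => hA.cC.ind.ne_zero i (Subtype.ext h)
  have hprod : ∏ j, y j = y 0 * ∏ j : Fin d, y j.succ := Fin.prod_univ_succ y
  have hP0 : (∏ j : Fin d, y j.succ) ≠ 0 := Finset.prod_ne_zero_iff.2 fun j _ => hne _
  have hPs : V.SpecTo C.gen (∏ j : Fin d, y j.succ) (∏ j : Fin d, (y' j : C.Frac)) := by
    have : ∀ s : Finset (Fin d), V.SpecTo C.gen (∏ j ∈ s, y j.succ) (∏ j ∈ s, (y' j : C.Frac)) := by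
      intro s
      classical
      induction s using Finset.induction_on with
      | empty => rw [Finset.prod_empty, Finset.prod_empty]; exact sp_one hA
      | insert i s hi ih =>
        rw [Finset.prod_insert hi, Finset.prod_insert hi]
        exact s4 _ _ _ _ (hA.s i) ih
    exact this Finset.univ
  have hPs0 : (∏ j : Fin d, (y' j : C.Frac)) ≠ 0 := Finset.prod_ne_zero_iff.2 fun j _ => hne' _
  constructor
  · rintro ⟨m, F, g, hF, hg, h⟩
    have h1 : f * (∏ j, y j)⁻¹ = ∑ k, F k * (Matrix.of fun i j => D i (g k j)).det := by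
      have h2 : (f • dL y) D = (∑ k, F k • dW (g k)) D := by rw [h]
      have h3 : dW y D = 1 := by
        rw [f3 y]
        have : (Matrix.of fun i j => D i (y j)) = 1 := by
          ext i j
          rw [Matrix.of_apply, hD.1 i j, Matrix.one_apply]
        rw [this, Matrix.det_one]
      rw [dL, AlternatingMap.smul_apply, AlternatingMap.smul_apply, h3, smul_eq_mul, smul_eq_mul,
        mul_one, form_sum_apply] at h2
      rw [h2]
      refine Finset.sum_congr rfl fun k _ => ?_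
      rw [AlternatingMap.smul_apply, smul_eq_mul, f3]
    have h2 : f * (∏ j, y j)⁻¹ ∈ O := by
      rw [h1]
      refine sum_mem fun k _ => ?_
      refine O.mul_mem _ _ (hF k) (det_mem O _ fun i j => ?_)
      rw [Matrix.of_apply]
      exact hstab _ _ (hg k j)
    obtain ⟨a, ha⟩ := (hO2 _).1 h2
    have h3 : f = y 0 * ((f * (∏ j, y j)⁻¹) * ∏ j : Fin d, y j.succ) := by
      rw [hprod, mul_inv]
      have := hne 0
      field_simp
    rw [h3]
    have h4 := s4 _ _ _ _ hA.z (s4 _ _ _ _ ha hPs)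
    rwa [zero_mul] at h4
  · intro h
    obtain ⟨u, a, hu, rfl⟩ := hO4 f h
    refine ⟨1, fun _ => u * (∏ j : Fin d, y j.succ)⁻¹, fun _ => y, ?_, ?_, ?_⟩
    · intro _
      rw [hO2]
      exact ⟨_, s4 _ _ _ _ hu (s6 _ _ hPs hPs0)⟩
    · intro _ i
      rw [hO2]
      refine Fin.cases ?_ (fun j => ?_) i
      · exact ⟨_, hA.z⟩
      · exact ⟨_, hA.s j⟩
    · rw [Fin.sum_univ_one, dL]
      apply AlternatingMap.ext
      intro v
      rw [AlternatingMap.smul_apply, AlternatingMap.smul_apply, AlternatingMap.smul_apply,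
        smul_eq_mul, smul_eq_mul, smul_eq_mul, ← mul_assoc]
      congr 1
      rw [hprod, mul_inv]
      have := hne 0
      field_simp

end PosGeom.H85
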