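import Pool.Agent.Helper93_ABCT.StmtI

/-!
# NDL (MP_a17fcb_ag): the logarithmic forms of facet data
-/

open MvPolynomial Topology

namespace PosGeom.H85

theorem yv_ne_zero {d : ℕ} (j : Fin d) : yv d j ≠ 0 := by
  unfold yv
  intro h
  exact X_ne_zero j (IsFractionRing.injective (MvPolynomial (Fin d) ℂ) (Fd d) (by rw [h, map_zero]))

theorem evN_yv {d : ℕ} (p : MvPolynomial (Fin d) ℕ) :
    evN (yv d) p = algebraMap (MvPolynomial (Fin d) ℂ) (Fd d) (map (Nat.castRingHom ℂ) p) := by
  unfold evN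
  induction p using MvPolynomial.induction_on with
  | C a => rw [eval₂_C, map_C, ← RingHom.comp_apply]; simp
  | add p q hp hq => rw [eval₂_add, map_add, map_add, hp, hq]
  | mul_X p i hp => rw [eval₂_mul, eval₂_X, map_mul, map_mul, hp, map_X]; rfl

theorem evN_yv_ne_zero {d : ℕ} {p : MvPolynomial (Fin d) ℕ} (hp : p ≠ 0) : evN (yv d) p ≠ 0 := by
  rw [evN_yv]
  intro h
  have h1 := IsFractionRing.injective (MvPolynomial (Fin d) ℂ) (Fd d)
    (a₁ := map (Nat.castRingHom ℂ) p) (a₂ := 0) (by rw [h, map_zero])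
  exact hp (map_injective (Nat.castRingHom ℂ) Nat.cast_injective (by rw [h1, map_zero]))

theorem PosF_ne_zero {d : ℕ} {f : Fd d} (hf : PosF f) : f ≠ 0 := by
  obtain ⟨N, D, hN, hD, rfl⟩ := hf
  exact div_ne_zero (evN_yv_ne_zero hN) (evN_yv_ne_zero hD)

theorem ndl (hfuni : FuniStmt) (hftwi : FtwiStmt) : NdlStmt := by
  intro ι _ d N N' A L'' m h κ a hN hN' hF e e' he he'
  constructor
  · apply hfuni N.var.K (d + 1) (N.ch e) (N.chA e A) A
    · intro j hj
      unfold NCell.ch at hj
      exact yv_ne_zero j (e.symm.injective (by rw [hj, map_zero]))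
    · intro i
      rfl
  · have hT : N'.chT e' h = fun j => N'.ch e' j * e'.symm (h j) := by
      funext j
      unfold NCell.chT NCell.ch
      rw [map_mul]
    rw [hT]
    apply hftwi N'.var.K d (N'.ch e') (fun j => e'.symm (h j)) a
    · intro j hj
      unfold NCell.ch at hj
      exact yv_ne_zero j (e'.symm.injective (by rw [hj, map_zero]))
    · intro j hj
      exact PosF_ne_zero (hF.hpos j) (e'.symm.injective (by rw [hj, map_zero]))
    · intro j hj
      rw [hF.tri1 j hj, map_one]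
    · intro j
      have h1 := hF.tri2 j
      have h2 : e'.symm.toAlgHom (h j) ∈
          (IntermediateField.adjoin ℂ {f | ∃ i : Fin d, (i : ℕ) < a ∧ f = yv d i}).map
            e'.symm.toAlgHom := ⟨h j, h1, rfl⟩
      rw [IntermediateField.adjoin_map] at h2
      refine IntermediateField.adjoin.mono _ _ _ ?_ h2
      rintro _ ⟨_, ⟨i, hi, rfl⟩, rfl⟩
      exact ⟨i, hi, rfl⟩

end PosGeom.H85
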