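import Pool.Agent.Helper93_ABCT.StmtI

/-!
# RSEM (MP_a17fcb_ag): semialgebraic sets cut out by coordinates
-/

open MvPolynomial Topology

namespace PosGeom.H85

theorem rsem : RsemStmt := by
  classical
  rintro ι _ P M' ⟨m, E, N, rfl⟩
  refine ⟨m, fun j => E j ∪ (Finset.univ.filter (fun i => i ∉ M')).image X, N, ?_⟩
  ext z
  constructor
  · rintro ⟨h, h0⟩
    obtain ⟨j, h1, h2⟩ : ∃ j, (∀ F ∈ E j, eval z F = 0) ∧ (∀ G ∈ N j, 0 < eval z G) := h
    refine ⟨j, ?_, h2⟩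
    intro F hF
    rcases Finset.mem_union.1 hF with h | h
    · exact h1 F h
    · obtain ⟨i, hi, rfl⟩ := Finset.mem_image.1 h
      rw [eval_X]
      exact h0 i (Finset.mem_filter.1 hi).2
  · intro h
    obtain ⟨j, h1, h2⟩ : ∃ j, (∀ F ∈ E j ∪ (Finset.univ.filter (fun i => i ∉ M')).image X,
      eval z F = 0) ∧ (∀ G ∈ N j, 0 < eval z G) := h
    refine ⟨⟨j, fun F hF => h1 F (Finset.mem_union_left _ hF), h2⟩, ?_⟩
    intro i hi
    have := h1 (X i) (Finset.mem_union_right _ (Finset.mem_image_of_mem _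
      (Finset.mem_filter.2 ⟨Finset.mem_univ _, hi⟩)))
    rwa [eval_X] at this

end PosGeom.H85
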