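import Pool.Agent.Helper93_ABCT.StmtI

/-!
# SPEC (MP_a17fcb_ag): algebra of specialization
-/

open MvPolynomial Topology

namespace PosGeom.H85

theorem aeval_gen {ι : Type} (V : PVar ι) (F : MvPolynomial ι ℂ) :
    aeval V.gen F = algebraMap (MvPolynomial ι ℂ ⧸ V.I) V.Frac (Ideal.Quotient.mk V.I F) := by
  have h : (aeval V.gen : MvPolynomial ι ℂ →ₐ[ℂ] V.Frac) =
      (IsScalarTower.toAlgHom ℂ (MvPolynomial ι ℂ ⧸ V.I) V.Frac).comp (Ideal.Quotient.mkₐ ℂ V.I) := by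
    apply MvPolynomial.algHom_ext
    intro i
    rw [aeval_X]
    rfl
  rw [h]
  rfl

theorem aeval_gen_eq_zero {ι : Type} (V : PVar ι) (F : MvPolynomial ι ℂ) :
    aeval V.gen F = 0 ↔ F ∈ V.I := by
  rw [aeval_gen, ← Ideal.Quotient.eq_zero_iff_mem]
  constructor
  · intro h
    exact IsFractionRing.injective (MvPolynomial ι ℂ ⧸ V.I) V.Frac (by rw [h, map_zero])
  · intro h
    rw [h, map_zero]

theorem gen_ne_zero {ι : Type} (V : PVar ι) : ∃ i, V.gen i ≠ 0 := by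
  obtain ⟨i, hi⟩ := V.rel
  refine ⟨i, fun h => hi ?_⟩
  rw [← aeval_gen_eq_zero, aeval_X, h]

/-- scaling of the argument of a form -/
theorem aeval_mul_hom {ι : Type} {L : Type} [Field L] [Algebra ℂ L] {F : MvPolynomial ι ℂ} {n : ℕ}
    (hF : F.IsHomogeneous n) (t : L) (z : ι → L) :
    aeval (fun i => t * z i) F = t ^ n * aeval z F := by
  rw [aeval_def, eval₂_eq, aeval_def, eval₂_eq, Finset.mul_sum]
  refine Finset.sum_congr rfl fun μ hμ => ?_
  have hm : ∑ i ∈ μ.support, μ i = n := by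
    have := hF (mem_support_iff.mp hμ)
    rw [Finsupp.weight_apply, Finsupp.sum] at this
    simpa using this
  have h2 : (∏ i ∈ μ.support, (t * z i) ^ μ i) = t ^ n * ∏ i ∈ μ.support, z i ^ μ i := by
    rw [← hm, ← Finset.prod_pow_eq_pow_sum, ← Finset.prod_mul_distrib]
    exact Finset.prod_congr rfl fun i _ => mul_pow _ _ _
  rw [h2]
  ring

theorem aeval_mem {ι : Type} {L : Type} [Field L] [Algebra ℂ L] (S : IntermediateField ℂ L)
    (z : ι → L) (hz : ∀ i, z i ∈ S) (F : MvPolynomial ι ℂ) : aeval z F ∈ S := by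
  induction F using MvPolynomial.induction_on with
  | C a => rw [aeval_C]; exact S.algebraMap_mem a
  | add p q hp hq => rw [map_add]; exact S.add_mem hp hq
  | mul_X p i hp => rw [map_mul, aeval_X]; exact S.mul_mem hp (hz i)

theorem quot_mem {ι : Type} {L : Type} [Field L] [Algebra ℂ L] (ξ : ι → L) (i : ι) (hi : ξ i ≠ 0)
    {F G : MvPolynomial ι ℂ} {n : ℕ} (hF : F.IsHomogeneous n) (hG : G.IsHomogeneous n) :
    aeval ξ F / aeval ξ G ∈ IntermediateField.adjoin ℂ {f | ∃ i j, f = ξ i / ξ j} := by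
  set S := IntermediateField.adjoin ℂ {f | ∃ i j, f = ξ i / ξ j} with hS
  have hz : ∀ j, ξ j / ξ i ∈ S := fun j => IntermediateField.subset_adjoin _ _ ⟨j, i, rfl⟩
  have h : ∀ H : MvPolynomial ι ℂ, H.IsHomogeneous n →
      aeval ξ H = ξ i ^ n * aeval (fun j => ξ j / ξ i) H := by
    intro H hH
    rw [← aeval_mul_hom hH]
    congr 2
    funext j
    field_simp
  rw [h F hF, h G hG, mul_div_mul_left _ _ (pow_ne_zero _ hi)]
  exact S.div_mem (aeval_mem S _ hz F) (aeval_mem S _ hz G)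

theorem spec : SpecStmt := by
  intro ι _ V L _ _ ξ hξ hne
  have hI : ∀ F : MvPolynomial ι ℂ, aeval V.gen F = 0 → aeval ξ F = 0 := fun F hF =>
    hξ F ((aeval_gen_eq_zero V F).1 hF)
  refine ⟨?_, ?_, ?_, ?_, ?_, ?_, ?_, ?_⟩
  · rintro f a b ⟨n, F, G, -, -, hG0, h1, h2⟩ ⟨n', F', G', -, -, hG0', h1', h2'⟩
    have h3 : aeval V.gen (F * G' - F' * G) = 0 := by
      rw [map_sub, map_mul, map_mul, ← h1, ← h1']
      ring
    have h4 := hI _ h3
    rw [map_sub, map_mul, map_mul, ← h2, ← h2'] at h4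
    have h5 : (a - b) * (aeval ξ G * aeval ξ G') = 0 := by
      rw [← h4]; ring
    rcases mul_eq_zero.1 h5 with h | h
    · exact sub_eq_zero.1 h
    · exact absurd h (mul_ne_zero hG0 hG0')
  · intro c
    refine ⟨0, C c, 1, isHomogeneous_C _ _, isHomogeneous_one _ _, ?_, ?_, ?_⟩
    · rw [map_one]; exact one_ne_zero
    · rw [map_one, mul_one, aeval_C]; rfl
    · rw [map_one, mul_one, aeval_C]
  · rintro f g a b ⟨n, F, G, hF, hG, hG0, h1, h2⟩ ⟨n', F', G', hF', hG', hG0', h1', h2'⟩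
    refine ⟨n + n', F * G' + F' * G, G * G', (hF.mul hG').add ?_, hG.mul hG', ?_, ?_, ?_⟩
    · rw [add_comm n n']; exact hF'.mul hG
    · rw [map_mul]; exact mul_ne_zero hG0 hG0'
    · rw [map_add, map_mul, map_mul, map_mul, ← h1, ← h1']
      push_cast
      ring
    · rw [map_add, map_mul, map_mul, map_mul, ← h2, ← h2']
      ring
  · rintro f g a b ⟨n, F, G, hF, hG, hG0, h1, h2⟩ ⟨n', F', G', hF', hG', hG0', h1', h2'⟩
    refine ⟨n + n', F * F', G * G', hF.mul hF', hG.mul hG', ?_, ?_, ?_⟩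
    · rw [map_mul]; exact mul_ne_zero hG0 hG0'
    · rw [map_mul, map_mul, ← h1, ← h1']
      push_cast
      ring
    · rw [map_mul, map_mul, ← h2, ← h2']
      ring
  · rintro f a ⟨n, F, G, hF, hG, hG0, h1, h2⟩
    refine ⟨n, -F, G, hF.neg, hG, hG0, ?_, ?_⟩
    · rw [map_neg, ← h1]
      push_cast
      ring
    · rw [map_neg, ← h2]
      ring
  · rintro f a ⟨n, F, G, hF, hG, hG0, h1, h2⟩ ha
    have hF0 : aeval ξ F ≠ 0 := by
      rw [← h2]; exact mul_ne_zero ha hG0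
    have hFg : aeval V.gen F ≠ 0 := fun h => hF0 (hI F h)
    have hf : (f : V.Frac) ≠ 0 := by
      intro h
      rw [h, zero_mul] at h1
      exact hFg h1.symm
    refine ⟨n, G, F, hG, hF, hF0, ?_, ?_⟩
    · rw [← h1]
      push_cast
      rw [← mul_assoc, inv_mul_cancel₀ hf, one_mul]
    · rw [← h2, ← mul_assoc, inv_mul_cancel₀ ha, one_mul]
  · intro n F G hF hG hG0
    obtain ⟨i, hi⟩ := gen_ne_zero V
    have hGg : aeval V.gen G ≠ 0 := fun h => hG0 (hI G h)
    refine ⟨⟨aeval V.gen F / aeval V.gen G, quot_mem V.gen i hi hF hG⟩, ?_, n, F, G, hF, hG, hG0,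
      ?_, ?_⟩
    · exact div_mul_cancel₀ _ hGg
    · exact div_mul_cancel₀ _ hGg
    · exact div_mul_cancel₀ _ hG0
  · rintro f a ⟨n, F, G, hF, hG, hG0, h1, h2⟩
    obtain ⟨i, hi⟩ := hne
    have : a = aeval ξ F / aeval ξ G := by
      rw [← h2, mul_div_cancel_right₀ _ hG0]
    rw [this]
    exact quot_mem ξ i hi hF hG

end PosGeom.H85
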