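import Pool.Agent.Helper32_ABCT.Stmts2

/-!
# CG5 (MP_a17fcb_ag): (Res) for the facets of one-vertex nets
-/

open MvPolynomial

namespace ABCT.H85

open FlatCell ABCT

/-! ### general lemmas on exponent vectors -/

theorem exists_vec {G : Type} [Finite G] (s : Finset ℕ) (α : ℕ → ℤ) (hα : ∀ i, i ∉ s → α i = 0)
    (γ : G → ℤ) : ∃ m : ℕ ⊕ G →₀ ℤ, (∀ i, m (Sum.inl i) = α i) ∧ ∀ h, m (Sum.inr h) = γ h := by
  have hfin : (Function.support (Sum.elim α γ)).Finite := by
    refine ((s.finite_toSet.image Sum.inl).union (Set.finite_range (Sum.inr : G → ℕ ⊕ G))).subset ?_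
    rintro (i | h) hv
    · left
      refine ⟨i, ?_, rfl⟩
      by_contra hi
      exact hv (hα i hi)
    · right
      exact ⟨h, rfl⟩
  exact ⟨Finsupp.ofSupportFinite (Sum.elim α γ) hfin, fun i => rfl, fun h => rfl⟩

theorem vec_sum {G : Type} [Fintype G] {N : Type} [AddCommMonoid N] (s : Finset ℕ)
    (m : ℕ ⊕ G →₀ ℤ) (hm : ∀ i, i ∉ s → m (Sum.inl i) = 0) (f : ℕ ⊕ G → ℤ → N)
    (hf : ∀ v, f v 0 = 0) :
    m.sum f = ∑ i ∈ s, f (Sum.inl i) (m (Sum.inl i)) + ∑ h : G, f (Sum.inr h) (m (Sum.inr h)) := by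
  classical
  rw [Finsupp.sum_of_support_subset m (s := s.disjSum Finset.univ) ?_ f (fun v _ => hf v),
    Finset.sum_disjSum]
  rintro (i | h) hv
  · rw [Finset.inl_mem_disjSum]
    by_contra hi
    exact (Finsupp.mem_support_iff.1 hv) (hm i hi)
  · rw [Finset.inr_mem_disjSum]
    exact Finset.mem_univ _

theorem vec_prod {G : Type} [Fintype G] {N : Type} [CommMonoid N] (s : Finset ℕ)
    (m : ℕ ⊕ G →₀ ℤ) (hm : ∀ i, i ∉ s → m (Sum.inl i) = 0) (f : ℕ ⊕ G → ℤ → N)
    (hf : ∀ v, f v 0 = 1) :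
    m.prod f = (∏ i ∈ s, f (Sum.inl i) (m (Sum.inl i))) * ∏ h : G, f (Sum.inr h) (m (Sum.inr h)) := by
  classical
  rw [Finsupp.prod_of_support_subset m (s := s.disjSum Finset.univ) ?_ f (fun v _ => hf v),
    Finset.prod_disjSum]
  rintro (i | h) hv
  · rw [Finset.inl_mem_disjSum]
    by_contra hi
    exact (Finsupp.mem_support_iff.1 hv) (hm i hi)
  · rw [Finset.inr_mem_disjSum]
    exact Finset.mem_univ _

theorem lmono_mapDomain {V W K : Type} [Field K] (ι : V ↪ W) (y : W → K) (m : V →₀ ℤ) :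
    lmono y (m.mapDomain ι) = lmono (fun v => y (ι v)) m := by
  rw [lmono, lmono, Finsupp.prod_mapDomain_index_inj ι.injective]

/-- a label is determined by the others -/
theorem lab_eq {s : Finset ℕ} {q : ℕ} (hq : q ∈ s) {α β : ℕ → ℤ} (hα : ∑ i ∈ s, α i = 0)
    (hβ : ∑ i ∈ s, β i = 0) (h : ∀ i, i ≠ q → α i = β i) : ∀ i, α i = β i := by
  intro i
  by_cases hi : i = q
  · subst hi
    rw [← Finset.add_sum_erase s α hq] at hα
    rw [← Finset.add_sum_erase s β hq] at hβ
    have : ∑ j ∈ s.erase i, α j = ∑ j ∈ s.erase i, β j :=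
      Finset.sum_congr rfl fun j hj => h j (Finset.ne_of_mem_erase hj)
    omega
  · exact h i hi

/-! ### one-vertex nets -/

/-- the description of the lattice of a one-vertex net with root `ρ` by position functions -/
structure VD (l₀ : List ℕ) (ρ r : ℕ) (S : Net) (g : ℕ → MvPolynomial S.G ℕ)
    (ga : (S.flat.V →₀ ℤ) → ℕ → ℤ) : Prop where
  add : ∀ m n k, ga (m + n) k = ga m k + ga n k
  supp : ∀ m ∈ S.flat.Lam, ∀ i, i ∉ (l₀ ++ [ρ]).toFinset → m (Sum.inl i) = 0
  lab : ∀ m ∈ S.flat.Lam, ∑ i ∈ (l₀ ++ [ρ]).toFinset, m (Sum.inl i) = 0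
  gap : ∀ m ∈ S.flat.Lam,
    ∑ k ∈ Finset.range (l₀.length - 1), ga m k + (r - 1 : ℤ) * m (Sum.inl ρ) = 0
  ex : ∀ (α γ : ℕ → ℤ), (∀ i, i ∉ (l₀ ++ [ρ]).toFinset → α i = 0) →
    ∑ i ∈ (l₀ ++ [ρ]).toFinset, α i = 0 →
    ∑ k ∈ Finset.range (l₀.length - 1), γ k + (r - 1 : ℤ) * α ρ = 0 →
    ∃ m ∈ S.flat.Lam, (∀ i, m (Sum.inl i) = α i) ∧ ∀ k < l₀.length - 1, ga m k = γ k
  inj : ∀ m ∈ S.flat.Lam, ∀ n ∈ S.flat.Lam, (∀ i, m (Sum.inl i) = n (Sum.inl i)) →
    (∀ k < l₀.length - 1, ga m k = ga n k) → m = n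
  prod : ∀ (K : Type) [Field K] (y : S.flat.V → K), ∀ m ∈ S.flat.Lam,
    lmono y m = (∏ i ∈ (l₀ ++ [ρ]).toFinset, y (Sum.inl i) ^ m (Sum.inl i)) *
      ∏ k ∈ Finset.range (l₀.length - 1),
        (eval₂ (Nat.castRingHom K) (fun h => y (Sum.inr h)) (g k)) ^ ga m k

theorem vd_gen (hgen : LgenStmt) (l₀ : List ℕ) (ρ r : ℕ) (hV : (Net.gen (l₀ ++ [ρ]) r).Valid)
    (g : ℕ → MvPolynomial (Net.gen (l₀ ++ [ρ]) r).G ℕ)
    (e : Fin ((l₀ ++ [ρ]).length - 2) ≃ (Net.gen (l₀ ++ [ρ]) r).G)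
    (he : ∀ h : Fin ((l₀ ++ [ρ]).length - 2), g h = X (e h)) :
    ∃ ga, VD l₀ ρ r (Net.gen (l₀ ++ [ρ]) r) g ga := by
  have hN : l₀.length - 1 = (l₀ ++ [ρ]).length - 2 := by
    rw [List.length_append, List.length_singleton]; omega
  refine ⟨fun m k => if h : k < (l₀ ++ [ρ]).length - 2 then m (Sum.inr (e ⟨k, h⟩)) else 0, ?_⟩
  have hsum : ∀ m : (Net.gen (l₀ ++ [ρ]) r).flat.V →₀ ℤ,
      ∑ k ∈ Finset.range (l₀.length - 1),
        (if h : k < (l₀ ++ [ρ]).length - 2 then m (Sum.inr (e ⟨k, h⟩)) else 0) =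
      ∑ h : Fin ((l₀ ++ [ρ]).length - 2), m (Sum.inr h) := by
    intro m
    rw [hN, ← Fin.sum_univ_eq_sum_range (fun k => if h : k < (l₀ ++ [ρ]).length - 2 then
      m (Sum.inr (e ⟨k, h⟩)) else 0)]
    rw [← Equiv.sum_comp e (fun h => m (Sum.inr h))]
    refine Finset.sum_congr rfl fun k _ => ?_
    rw [dif_pos k.2]
  constructor
  · intro m n k
    dsimp only
    split_ifs with h
    · rfl
    · rfl
  · intro m hm i hi
    exact ((hgen l₀ ρ r hV m).1 hm).1 i (fun h => hi (List.mem_toFinset.2 h))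
  · intro m hm
    exact ((hgen l₀ ρ r hV m).1 hm).2.1
  · intro m hm
    rw [hsum]
    exact ((hgen l₀ ρ r hV m).1 hm).2.2
  · intro α γ h1 h2 h3
    obtain ⟨m, hm1, hm2⟩ := exists_vec (G := (Net.gen (l₀ ++ [ρ]) r).G) _ α h1
      (fun h => γ ((e.symm h : Fin _) : ℕ))
    have hk : ∀ k < l₀.length - 1,
        (if h : k < (l₀ ++ [ρ]).length - 2 then m (Sum.inr (e ⟨k, h⟩)) else 0) = γ k := by
      intro k hk
      rw [dif_pos (by omega), hm2, Equiv.symm_apply_apply]
    refine ⟨m, (hgen l₀ ρ r hV m).2 ⟨?_, ?_, ?_⟩, hm1, hk⟩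
    · intro i hi
      rw [hm1]
      exact h1 i (fun h => hi (List.mem_toFinset.1 h))
    · rw [← h2]
      exact Finset.sum_congr rfl fun i _ => hm1 i
    · rw [← hsum, hm1]
      refine Eq.trans ?_ h3
      congr 1
      exact Finset.sum_congr rfl fun k hk' => hk k (Finset.mem_range.1 hk')
  · intro m _ n _ h1 h2
    ext v
    rcases v with i | h
    · exact h1 i
    · have := h2 ((e.symm h : Fin _) : ℕ) (by have := (e.symm h).2; omega)
      dsimp only at this
      rw [dif_pos (e.symm h).2, dif_pos (e.symm h).2] at this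
      simpa using this
  · intro K _ y m hm
    rw [lmono, vec_prod (l₀ ++ [ρ]).toFinset m
      (fun i hi => ((hgen l₀ ρ r hV m).1 hm).1 i (fun h => hi (List.mem_toFinset.2 h))) _
      (fun v => zpow_zero _)]
    congr 1
    rw [hN, ← Fin.prod_univ_eq_prod_range (fun k => (eval₂ (Nat.castRingHom K)
      (fun h => y (Sum.inr h)) (g k)) ^ (if h : k < (l₀ ++ [ρ]).length - 2 then
      m (Sum.inr (e ⟨k, h⟩)) else 0))]
    rw [← Equiv.prod_comp e (fun h => y (Sum.inr h) ^ m (Sum.inr h))]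
    refine Finset.prod_congr rfl fun k _ => ?_
    rw [dif_pos k.2, he, eval₂_X]

theorem vd_three (l₀ : List ℕ) (ρ r : ℕ) (S : Net) (g : ℕ → MvPolynomial S.G ℕ)
    (hlen : (l₀ ++ [ρ]).length = 3) (hE : IsEmpty S.G) (hg : g 0 = 1)
    (hlam : ∀ m : S.flat.V →₀ ℤ, m ∈ S.flat.Lam ↔
      (∀ i : ℕ, i ∉ (l₀ ++ [ρ]).toFinset → m (Sum.inl i) = 0) ∧
        ∑ i ∈ (l₀ ++ [ρ]).toFinset, m (Sum.inl i) = 0) :
    ∃ ga, VD l₀ ρ r S g ga := by
  have hN : l₀.length - 1 = 1 := by
    rw [List.length_append, List.length_singleton] at hlen; omega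
  refine ⟨fun m _ => - ((r - 1 : ℤ) * m (Sum.inl ρ)), ?_⟩
  constructor
  · intro m n k
    dsimp only
    rw [Finsupp.add_apply]
    ring
  · intro m hm
    exact ((hlam m).1 hm).1
  · intro m hm
    exact ((hlam m).1 hm).2
  · intro m hm
    rw [hN, Finset.sum_range_one]
    ring
  · intro α γ h1 h2 h3
    obtain ⟨m, hm1, hm2⟩ := exists_vec (G := S.G) _ α h1 (fun h => (hE.false h).elim)
    refine ⟨m, (hlam m).2 ⟨?_, ?_⟩, hm1, ?_⟩
    · intro i hi
      rw [hm1]
      exact h1 i hi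
    · rw [← h2]
      exact Finset.sum_congr rfl fun i _ => hm1 i
    · intro k hk
      rw [hN] at hk h3
      rw [Finset.sum_range_one] at h3
      obtain rfl : k = 0 := by omega
      rw [hm1]
      linarith
  · intro m _ n _ h1 _
    ext v
    rcases v with i | h
    · exact h1 i
    · exact (hE.false h).elim
  · intro K _ y m hm
    let _ : Fintype S.G := Fintype.ofIsEmpty
    rw [lmono, vec_prod (l₀ ++ [ρ]).toFinset m ((hlam m).1 hm).1 _
      (fun v => zpow_zero _), hN, Finset.prod_range_one, hg, eval₂_one, one_zpow]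
    rw [Fintype.prod_empty]

theorem vd (hgen : LgenStmt) (hbw : LbwStmt) (l₀ : List ℕ) (ρ r : ℕ) (S : Net)
    (g : ℕ → MvPolynomial S.G ℕ) (hnd : (l₀ ++ [ρ]).Nodup) (hS : Net.IsVtx (l₀ ++ [ρ]) r S)
    (hg : VtxG (l₀ ++ [ρ]) r S g) : ∃ ga, VD l₀ ρ r S g ga := by
  obtain ⟨-, -, -, -, hg⟩ := hg
  generalize hl : l₀ ++ [ρ] = l at hS
  cases hS with
  | gen _ h1 h2 =>
    subst hl
    have hV : (Net.gen (l₀ ++ [ρ]) r).Valid := ⟨hnd, h1, h2⟩
    rcases hg with ⟨e, he⟩ | ⟨h3, -, -⟩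
    · exact vd_gen hgen l₀ ρ r hV g e he
    · omega
  | black h3 =>
    subst hl
    rcases hg with ⟨e, he⟩ | ⟨-, hE, hg0⟩
    · exact (e ⟨0, by omega⟩).elim
    · refine vd_three l₀ ρ 1 _ g h3 hE hg0 ?_
      exact (hbw (l₀ ++ [ρ]).toFinset ⟨ρ, by simp⟩).1
  | white h3 =>
    subst hl
    rcases hg with ⟨e, he⟩ | ⟨-, hE, hg0⟩
    · exact (e ⟨0, by omega⟩).elim
    · refine vd_three l₀ ρ 2 _ g h3 hE hg0 ?_
      exact (hbw (l₀ ++ [ρ]).toFinset ⟨ρ, by simp⟩).2

/-! ### position functions of vectors of `gen` -/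

/-- the gap coordinates by position -/
noncomputable def pm {l : List ℕ} {r : ℕ} (m : (Net.gen l r).flat.V →₀ ℤ) (k : ℕ) : ℤ :=
  if h : k < l.length - 2 then m (Sum.inr ⟨k, h⟩) else 0

theorem pm_add {l : List ℕ} {r : ℕ} (m n : (Net.gen l r).flat.V →₀ ℤ) (k : ℕ) :
    pm (m + n) k = pm m k + pm n k := by
  unfold pm
  split_ifs with h
  · rfl
  · rfl

theorem pm_sum {l : List ℕ} {r : ℕ} (m : (Net.gen l r).flat.V →₀ ℤ) (F : ℕ → ℤ) :
    ∑ h : Fin (l.length - 2), F h * m (Sum.inr h) = ∑ k ∈ Finset.range (l.length - 2), F k * pm m k := by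
  rw [← Fin.sum_univ_eq_sum_range (fun k => F k * pm m k)]
  refine Finset.sum_congr rfl fun k _ => ?_
  rw [pm, dif_pos k.2]

theorem pm_prod {K : Type} [Field K] {l : List ℕ} {r : ℕ} (m : (Net.gen l r).flat.V →₀ ℤ)
    (F : ℕ → K) : ∏ h : Fin (l.length - 2), F h ^ m (Sum.inr h) =
      ∏ k ∈ Finset.range (l.length - 2), F k ^ pm m k := by
  rw [← Fin.prod_univ_eq_prod_range (fun k => F k ^ pm m k)]
  refine Finset.prod_congr rfl fun k _ => ?_
  rw [pm, dif_pos k.2]

section main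

variable {L A R : List ℕ} {ρ q d r : ℕ} {SA SB : Net}
    {gA : ℕ → MvPolynomial SA.G ℕ} {gB : ℕ → MvPolynomial SB.G ℕ}

theorem len_l (hA : 2 ≤ A.length) :
    (L ++ A ++ R ++ [ρ]).length - 2 = L.length + (A.length - 1) + R.length := by
  simp only [List.length_append, List.length_singleton]
  omega

theorem pair_eq (hA : 2 ≤ A.length)
    (m : (Net.gen (L ++ A ++ R ++ [ρ]) (d + r)).flat.V →₀ ℤ)
    (hm : ∀ i : ℕ, i ∉ (L ++ A ++ R ++ [ρ]).toFinset → m (Sum.inl i) = 0) :
    (genFD L A R ρ q d r SA SB gA gB).pair m =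
      ∑ k ∈ Finset.range (A.length - 1), pm m (L.length + k) -
        d * ∑ i ∈ A.toFinset, m (Sum.inl i) := by
  rw [FacetData.pair, vec_sum (L ++ A ++ R ++ [ρ]).toFinset m hm _ (fun v => mul_zero _)]
  have h1 : ∑ i ∈ (L ++ A ++ R ++ [ρ]).toFinset, (genFD L A R ρ q d r SA SB gA gB).lam (Sum.inl i) *
      m (Sum.inl i) = -(d * ∑ i ∈ A.toFinset, m (Sum.inl i)) := by
    have : ∀ i ∈ (L ++ A ++ R ++ [ρ]).toFinset,
        (genFD L A R ρ q d r SA SB gA gB).lam (Sum.inl i) * m (Sum.inl i) =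
        if i ∈ A.toFinset then -(d : ℤ) * m (Sum.inl i) else 0 := by
      intro i _
      show (if i ∈ A then -(d : ℤ) else 0) * m (Sum.inl i) = _
      by_cases hi : i ∈ A
      · rw [if_pos hi, if_pos (List.mem_toFinset.2 hi)]
      · rw [if_neg hi, if_neg (fun h => hi (List.mem_toFinset.1 h)), zero_mul]
    rw [Finset.sum_congr rfl this, Finset.sum_ite_mem]
    have hsub : (L ++ A ++ R ++ [ρ]).toFinset ∩ A.toFinset = A.toFinset := by
      rw [Finset.inter_eq_right]
      intro i hi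
      simp only [List.mem_toFinset, List.mem_append] at hi ⊢
      tauto
    rw [hsub, ← Finset.mul_sum]
    ring
  have h2 : ∑ h : Fin ((L ++ A ++ R ++ [ρ]).length - 2),
      (genFD L A R ρ q d r SA SB gA gB).lam (Sum.inr h) * m (Sum.inr h) =
      ∑ k ∈ Finset.range (A.length - 1), pm m (L.length + k) := by
    have := pm_sum m (fun k => if L.length ≤ k ∧ k + 1 < L.length + A.length then (1 : ℤ) else 0)
    refine Eq.trans ?_ (this.trans ?_)
    · rfl
    · rw [len_l hA, Finset.sum_range_add, Finset.sum_range_add]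
      have e1 : ∑ k ∈ Finset.range L.length, (if L.length ≤ k ∧ k + 1 < L.length + A.length then
          (1 : ℤ) else 0) * pm m k = 0 := by
        refine Finset.sum_eq_zero fun k hk => ?_
        rw [Finset.mem_range] at hk
        rw [if_neg (by omega), zero_mul]
      have e3 : ∑ k ∈ Finset.range R.length, (if L.length ≤ L.length + (A.length - 1) + k ∧
          L.length + (A.length - 1) + k + 1 < L.length + A.length then
          (1 : ℤ) else 0) * pm m (L.length + (A.length - 1) + k) = 0 := by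
        refine Finset.sum_eq_zero fun k hk => ?_
        rw [if_neg (by omega), zero_mul]
      rw [e1, e3, zero_add, add_zero]
      refine Finset.sum_congr rfl fun k hk => ?_
      rw [Finset.mem_range] at hk
      rw [if_pos (by omega), one_mul]
  rw [h1]
  rw [show (∑ h : (Net.gen (L ++ A ++ R ++ [ρ]) (d + r)).G,
    (genFD L A R ρ q d r SA SB gA gB).lam (Sum.inr h) * m (Sum.inr h)) = _ from h2]
  ring

/-- the value of the gap `k` of the second vertex -/
noncomputable def vB (SA : Net) {SB : Net} (q : ℕ) (gB : ℕ → MvPolynomial SB.G ℕ) (k : ℕ) :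
    (Net.tsum SA SB q).flat.F := gvR SA SB q (gB k)

/-- the value of the gap `k` of the first vertex -/
noncomputable def vA {SA : Net} (SB : Net) (q : ℕ) (gA : ℕ → MvPolynomial SA.G ℕ) (k : ℕ) :
    (Net.tsum SA SB q).flat.F := gvL SA SB q (gA k)

/-- the label factors -/
noncomputable def kap (L R : List ℕ) (SA : Net) {SB : Net} (q d : ℕ)
    (gB : ℕ → MvPolynomial SB.G ℕ) (i : ℕ) : (Net.tsum SA SB q).flat.F :=
  if i ∈ L then
            (gvR SA SB q (∑ h ∈ Finset.Ico (L.idxOf i) L.length, gB h) ^ d)⁻¹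
         else if i ∈ R then
            (gvR SA SB q (∑ h ∈ Finset.Ico L.length (L.length + 1 + R.idxOf i), gB h) ^ d)⁻¹
         else 1

theorem wmono_gen (hA : 2 ≤ A.length)
    (m : (Net.gen (L ++ A ++ R ++ [ρ]) (d + r)).flat.V →₀ ℤ)
    (hm : ∀ i : ℕ, i ∉ (L ++ A ++ R ++ [ρ]).toFinset → m (Sum.inl i) = 0) :
    (genFD L A R ρ q d r SA SB gA gB).wmono m =
      (∏ i ∈ (L ++ A ++ R ++ [ρ]).toFinset, (Net.tsum SA SB q).flat.x (Sum.inl i) ^ m (Sum.inl i)) *
      (∏ i ∈ (L ++ R).toFinset, kap L R SA q d gB i ^ m (Sum.inl i)) *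
      ((∏ k ∈ Finset.range L.length, vB SA q gB k ^ pm m k) *
      (∏ k ∈ Finset.range (A.length - 1), vA SB q gA k ^ pm m (L.length + k)) *
      (∏ k ∈ Finset.range R.length, vB SA q gB (L.length + k) ^
        pm m (L.length + (A.length - 1) + k))) := by
  rw [wmono_eq, lmono, vec_prod (L ++ A ++ R ++ [ρ]).toFinset m hm _ (fun v => zpow_zero _)]
  congr 1
  · have h1 : ∀ i ∈ (L ++ A ++ R ++ [ρ]).toFinset,
        (genFD L A R ρ q d r SA SB gA gB).w (Sum.inl i) ^ m (Sum.inl i) =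
        (Net.tsum SA SB q).flat.x (Sum.inl i) ^ m (Sum.inl i) *
          kap L R SA q d gB i ^ m (Sum.inl i) := by
      intro i _
      rw [← mul_zpow]
      rfl
    rw [Finset.prod_congr rfl h1, Finset.prod_mul_distrib]
    congr 1
    symm
    apply Finset.prod_subset
    · intro i hi
      simp only [List.mem_toFinset, List.mem_append] at hi ⊢
      tauto
    · intro i _ hi
      have h2 : i ∉ L ∧ i ∉ R := by
        simp only [List.mem_toFinset, List.mem_append, not_or] at hi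
        exact hi
      rw [kap, if_neg h2.1, if_neg h2.2, one_zpow]
  · have := pm_prod m (fun k => if k < L.length then vB SA q gB k
        else if k + 1 < L.length + A.length then vA SB q gA (k - L.length)
        else vB SA q gB (k + 1 - A.length))
    refine Eq.trans ?_ (this.trans ?_)
    · rfl
    · rw [len_l hA, Finset.prod_range_add, Finset.prod_range_add]
      congr 1
      · congr 1
        · refine Finset.prod_congr rfl fun k hk => ?_
          rw [Finset.mem_range] at hk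
          rw [if_pos hk]
        · refine Finset.prod_congr rfl fun k hk => ?_
          rw [Finset.mem_range] at hk
          rw [if_neg (by omega), if_pos (by omega), Nat.add_sub_cancel_left]
      · refine Finset.prod_congr rfl fun k hk => ?_
        rw [if_neg (by omega), if_neg (by omega)]
        congr 2
        omega

/-- gap coordinates of the second vertex -/
noncomputable def posB (L A R : List ℕ) {ρ d r : ℕ}
    (m : (Net.gen (L ++ A ++ R ++ [ρ]) (d + r)).flat.V →₀ ℤ) (k : ℕ) : ℤ :=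
  pm m (if k < L.length then k else k + (A.length - 1))

/-- the correction -/
noncomputable def corC (L A R : List ℕ) {ρ d r : ℕ}
    (m : (Net.gen (L ++ A ++ R ++ [ρ]) (d + r)).flat.V →₀ ℤ) : ℤ :=
  -(d * ∑ i ∈ (L ++ R).toFinset, m (Sum.inl i))

/-- the correction at position `k` -/
noncomputable def cor (L A R : List ℕ) {ρ d r : ℕ}
    (m : (Net.gen (L ++ A ++ R ++ [ρ]) (d + r)).flat.V →₀ ℤ) (k : ℕ) : ℤ :=
  if k = 0 then corC L A R m else 0

/-- the relation defining `θ` -/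
def Rel (L A R : List ℕ) {ρ d r : ℕ} (q : ℕ) (gaA : (SA.flat.V →₀ ℤ) → ℕ → ℤ)
    (gaB : (SB.flat.V →₀ ℤ) → ℕ → ℤ)
    (m : (Net.gen (L ++ A ++ R ++ [ρ]) (d + r)).flat.V →₀ ℤ)
    (m' : (Net.tsum SA SB q).flat.V →₀ ℤ) : Prop :=
  ∃ a ∈ SA.flat.Lam, ∃ b ∈ SB.flat.Lam, a (Sum.inl q) + b (Sum.inl q) = 0 ∧
    m' = a.mapDomain (vtL SA SB q) + b.mapDomain (vtR SA SB q) ∧
    (∀ i ∈ A, a (Sum.inl i) = m (Sum.inl i)) ∧
    (∀ i ∈ L ++ R ++ [ρ], b (Sum.inl i) = m (Sum.inl i)) ∧
    (∀ k < A.length - 1, gaA a k = pm m (L.length + k)) ∧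
    (∀ k < L.length + R.length, gaB b k = posB L A R m k + cor L A R m k)

/-- the assumptions -/
structure Ctx (L A R : List ℕ) (ρ q d r : ℕ) (SA SB : Net)
    (gA : ℕ → MvPolynomial SA.G ℕ) (gB : ℕ → MvPolynomial SB.G ℕ)
    (gaA : (SA.flat.V →₀ ℤ) → ℕ → ℤ) (gaB : (SB.flat.V →₀ ℤ) → ℕ → ℤ) : Prop where
  nd : (L ++ A ++ R ++ [ρ]).Nodup
  hq : q ∉ L ++ A ++ R ++ [ρ]
  hA : 2 ≤ A.length
  hB : 1 ≤ L.length + R.length
  dA : VD A q (d + 1) SA gA gaA
  dB : VD (L ++ [q] ++ R) ρ r SB gB gaB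
  vB : ∀ k < L.length + R.length, vB SA q gB k ≠ 0

variable {gaA : (SA.flat.V →₀ ℤ) → ℕ → ℤ} {gaB : (SB.flat.V →₀ ℤ) → ℕ → ℤ}

theorem setA : (A ++ [q]).toFinset = insert q A.toFinset := by
  ext i
  simp only [List.mem_toFinset, List.mem_append, List.mem_singleton, Finset.mem_insert]
  tauto

theorem setB : (L ++ [q] ++ R ++ [ρ]).toFinset = insert q (L ++ R ++ [ρ]).toFinset := by
  ext i
  simp only [List.mem_toFinset, List.mem_append, List.mem_singleton, Finset.mem_insert]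
  tauto

theorem setl : (L ++ A ++ R ++ [ρ]).toFinset = A.toFinset ∪ (L ++ R ++ [ρ]).toFinset := by
  ext i
  simp only [List.mem_toFinset, List.mem_append, List.mem_singleton, Finset.mem_union]
  tauto

theorem Ctx.disj (h : Ctx L A R ρ q d r SA SB gA gB gaA gaB) :
    Disjoint A.toFinset (L ++ R ++ [ρ]).toFinset := by
  rw [Finset.disjoint_left]
  intro i hi hi'
  have := h.nd
  simp only [List.mem_toFinset, List.mem_append, List.mem_singleton] at hi hi'
  simp only [List.nodup_append, List.mem_append, List.mem_singleton] at this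
  obtain ⟨⟨⟨-, -, h1⟩, -, h2⟩, -, h3⟩ := this
  rcases hi' with (h4 | h4) | h4
  · exact h1 i h4 i hi rfl
  · exact h2 i (Or.inr hi) i h4 rfl
  · exact h3 i (Or.inl (Or.inr hi)) i h4 rfl

theorem Ctx.qA (h : Ctx L A R ρ q d r SA SB gA gB gaA gaB) : q ∉ A.toFinset := by
  intro hi
  apply h.hq
  simp only [List.mem_toFinset, List.mem_append] at hi ⊢
  tauto

theorem Ctx.qB (h : Ctx L A R ρ q d r SA SB gA gB gaA gaB) : q ∉ (L ++ R ++ [ρ]).toFinset := by
  intro hi
  apply h.hq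
  simp only [List.mem_toFinset, List.mem_append] at hi ⊢
  tauto

theorem Ctx.lenB (_ : Ctx L A R ρ q d r SA SB gA gB gaA gaB) :
    (L ++ [q] ++ R).length - 1 = L.length + R.length := by
  simp only [List.length_append, List.length_singleton]
  omega

theorem mono_rel (h : Ctx L A R ρ q d r SA SB gA gB gaA gaB)
    (m : (Net.gen (L ++ A ++ R ++ [ρ]) (d + r)).flat.V →₀ ℤ)
    (m' : (Net.tsum SA SB q).flat.V →₀ ℤ) (hr : Rel L A R q gaA gaB m m') :
    (Net.tsum SA SB q).flat.mono m' =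
      (∏ i ∈ (L ++ A ++ R ++ [ρ]).toFinset, (Net.tsum SA SB q).flat.x (Sum.inl i) ^ m (Sum.inl i)) *
      ((∏ k ∈ Finset.range L.length, vB SA q gB k ^ pm m k) *
      (∏ k ∈ Finset.range (A.length - 1), vA SB q gA k ^ pm m (L.length + k)) *
      (∏ k ∈ Finset.range R.length, vB SA q gB (L.length + k) ^
        pm m (L.length + (A.length - 1) + k))) * vB SA q gB 0 ^ corC L A R m := by
  obtain ⟨a, ha, b, hb, hq0, rfl, hlA, hlB, hgA, hgB⟩ := hr
  rw [mono_eq, lmono_add _ (fun v => xx_ne_zero v), lmono_mapDomain, lmono_mapDomain,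
    h.dA.prod _ _ a ha, h.dB.prod _ _ b hb, h.lenB]
  have e1 : (∏ i ∈ (A ++ [q]).toFinset, (xx (vtL SA SB q (Sum.inl i)) :
      (Net.tsum SA SB q).flat.F) ^ a (Sum.inl i)) *
      (∏ i ∈ (L ++ [q] ++ R ++ [ρ]).toFinset, (xx (vtR SA SB q (Sum.inl i)) :
      (Net.tsum SA SB q).flat.F) ^ b (Sum.inl i)) =
      ∏ i ∈ (L ++ A ++ R ++ [ρ]).toFinset,
        (Net.tsum SA SB q).flat.x (Sum.inl i) ^ m (Sum.inl i) := by
    rw [setA, setB, setl, Finset.prod_insert h.qA, Finset.prod_insert h.qB,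
      Finset.prod_union h.disj]
    have e2 : (xx (vtL SA SB q (Sum.inl q)) : (Net.tsum SA SB q).flat.F) ^ a (Sum.inl q) *
        (xx (vtR SA SB q (Sum.inl q)) : (Net.tsum SA SB q).flat.F) ^ b (Sum.inl q) = 1 := by
      rw [show vtL SA SB q (Sum.inl q) = Sum.inl q from rfl,
        show vtR SA SB q (Sum.inl q) = Sum.inl q from rfl, ← zpow_add₀ (xx_ne_zero _), hq0,
        zpow_zero]
    have e3 : ∏ i ∈ A.toFinset, (xx (vtL SA SB q (Sum.inl i)) :
        (Net.tsum SA SB q).flat.F) ^ a (Sum.inl i) =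
        ∏ i ∈ A.toFinset, (Net.tsum SA SB q).flat.x (Sum.inl i) ^ m (Sum.inl i) := by
      refine Finset.prod_congr rfl fun i hi => ?_
      rw [hlA i (List.mem_toFinset.1 hi)]
      rfl
    have e4 : ∏ i ∈ (L ++ R ++ [ρ]).toFinset, (xx (vtR SA SB q (Sum.inl i)) :
        (Net.tsum SA SB q).flat.F) ^ b (Sum.inl i) =
        ∏ i ∈ (L ++ R ++ [ρ]).toFinset, (Net.tsum SA SB q).flat.x (Sum.inl i) ^ m (Sum.inl i) := by
      refine Finset.prod_congr rfl fun i hi => ?_
      rw [hlB i (List.mem_toFinset.1 hi)]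
      rfl
    rw [e3, e4]
    linear_combination (∏ i ∈ A.toFinset, (Net.tsum SA SB q).flat.x (Sum.inl i) ^ m (Sum.inl i)) *
      (∏ i ∈ (L ++ R ++ [ρ]).toFinset, (Net.tsum SA SB q).flat.x (Sum.inl i) ^ m (Sum.inl i)) * e2
  have e5 : ∏ k ∈ Finset.range (A.length - 1), (eval₂ (Nat.castRingHom _)
      (fun h => (xx (vtL SA SB q (Sum.inr h)) : (Net.tsum SA SB q).flat.F)) (gA k)) ^ gaA a k =
      ∏ k ∈ Finset.range (A.length - 1), vA SB q gA k ^ pm m (L.length + k) := by
    refine Finset.prod_congr rfl fun k hk => ?_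
    rw [hgA k (Finset.mem_range.1 hk)]
    rfl
  have e6 : ∏ k ∈ Finset.range (L.length + R.length), (eval₂ (Nat.castRingHom _)
      (fun h => (xx (vtR SA SB q (Sum.inr h)) : (Net.tsum SA SB q).flat.F)) (gB k)) ^ gaB b k =
      (∏ k ∈ Finset.range (L.length + R.length), vB SA q gB k ^ posB L A R m k) *
        vB SA q gB 0 ^ corC L A R m := by
    have e7 : ∀ k ∈ Finset.range (L.length + R.length), (eval₂ (Nat.castRingHom _)
      (fun h => (xx (vtR SA SB q (Sum.inr h)) : (Net.tsum SA SB q).flat.F)) (gB k)) ^ gaB b k =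
      vB SA q gB k ^ posB L A R m k * vB SA q gB k ^ cor L A R m k := by
      intro k hk
      rw [hgB k (Finset.mem_range.1 hk), ← zpow_add₀ (h.vB k (Finset.mem_range.1 hk))]
      rfl
    rw [Finset.prod_congr rfl e7, Finset.prod_mul_distrib]
    congr 1
    rw [Finset.prod_eq_single 0]
    · rw [cor, if_pos rfl]
    · intro k _ hk
      rw [cor, if_neg hk, zpow_zero]
    · intro h0
      exact absurd (Finset.mem_range.2 h.hB) h0
  have e8 : ∏ k ∈ Finset.range (L.length + R.length), vB SA q gB k ^ posB L A R m k =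
      (∏ k ∈ Finset.range L.length, vB SA q gB k ^ pm m k) *
      (∏ k ∈ Finset.range R.length, vB SA q gB (L.length + k) ^
        pm m (L.length + (A.length - 1) + k)) := by
    rw [Finset.prod_range_add]
    congr 1
    · refine Finset.prod_congr rfl fun k hk => ?_
      rw [Finset.mem_range] at hk
      rw [posB, if_pos hk]
    · refine Finset.prod_congr rfl fun k hk => ?_
      rw [posB, if_neg (by omega)]
      congr 2
      omega
  rw [e5, e6, e8, ← e1]
  ring

theorem sum_posB (m : (Net.gen (L ++ A ++ R ++ [ρ]) (d + r)).flat.V →₀ ℤ) :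
    ∑ k ∈ Finset.range (L.length + R.length), posB L A R m k =
      ∑ k ∈ Finset.range L.length, pm m k +
      ∑ k ∈ Finset.range R.length, pm m (L.length + (A.length - 1) + k) := by
  rw [Finset.sum_range_add]
  congr 1
  · refine Finset.sum_congr rfl fun k hk => ?_
    rw [Finset.mem_range] at hk
    rw [posB, if_pos hk]
  · refine Finset.sum_congr rfl fun k hk => ?_
    rw [posB, if_neg (by omega)]
    congr 1
    omega

theorem sum_cor (h : 1 ≤ L.length + R.length)
    (m : (Net.gen (L ++ A ++ R ++ [ρ]) (d + r)).flat.V →₀ ℤ) :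
    ∑ k ∈ Finset.range (L.length + R.length), cor L A R m k = corC L A R m := by
  rw [Finset.sum_eq_single 0]
  · rw [cor, if_pos rfl]
  · intro k _ hk
    rw [cor, if_neg hk]
  · intro h0
    exact absurd (Finset.mem_range.2 h) h0

theorem sum_gaps (hA : 2 ≤ A.length)
    (m : (Net.gen (L ++ A ++ R ++ [ρ]) (d + r)).flat.V →₀ ℤ) :
    ∑ h : Fin ((L ++ A ++ R ++ [ρ]).length - 2), m (Sum.inr h) =
      ∑ k ∈ Finset.range L.length, pm m k +
      ∑ k ∈ Finset.range (A.length - 1), pm m (L.length + k) +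
      ∑ k ∈ Finset.range R.length, pm m (L.length + (A.length - 1) + k) := by
  have := pm_sum m (fun _ => 1)
  simp only [one_mul] at this
  rw [← Finset.sum_range_add, ← Finset.sum_range_add, ← len_l (ρ := ρ) hA]
  exact this

theorem Ctx.setLR (h : Ctx L A R ρ q d r SA SB gA gB gaA gaB) (α : ℕ → ℤ) :
    ∑ i ∈ (L ++ R ++ [ρ]).toFinset, α i = ∑ i ∈ (L ++ R).toFinset, α i + α ρ := by
  have e : (L ++ R ++ [ρ]).toFinset = insert ρ (L ++ R).toFinset := by
    ext i
    simp only [List.mem_toFinset, List.mem_append, List.mem_singleton, Finset.mem_insert]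
    tauto
  have hρ : ρ ∉ (L ++ R).toFinset := by
    intro hi
    have := h.nd
    simp only [List.mem_toFinset, List.mem_append] at hi
    simp only [List.nodup_append, List.mem_append, List.mem_singleton] at this
    obtain ⟨-, -, h3⟩ := this
    rcases hi with h4 | h4
    · exact h3 ρ (Or.inl (Or.inl h4)) ρ rfl rfl
    · exact h3 ρ (Or.inr h4) ρ rfl rfl
  rw [e, Finset.sum_insert hρ, add_comm]

/-- the lattice of `gen` -/
theorem lam_gen (hgen : LgenStmt) (hV : (Net.gen (L ++ A ++ R ++ [ρ]) (d + r)).Valid)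
    (h : Ctx L A R ρ q d r SA SB gA gB gaA gaB)
    (m : (Net.gen (L ++ A ++ R ++ [ρ]) (d + r)).flat.V →₀ ℤ) :
    m ∈ (Net.gen (L ++ A ++ R ++ [ρ]) (d + r)).flat.Lam ↔
      (∀ i : ℕ, i ∉ (L ++ A ++ R ++ [ρ]).toFinset → m (Sum.inl i) = 0) ∧
      ∑ i ∈ A.toFinset, m (Sum.inl i) + (∑ i ∈ (L ++ R).toFinset, m (Sum.inl i) + m (Sum.inl ρ)) = 0 ∧
      ∑ k ∈ Finset.range L.length, pm m k +
      ∑ k ∈ Finset.range (A.length - 1), pm m (L.length + k) +
      ∑ k ∈ Finset.range R.length, pm m (L.length + (A.length - 1) + k) +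
        (d + r - 1 : ℤ) * m (Sum.inl ρ) = 0 := by
  rw [hgen (L ++ A ++ R) ρ (d + r) hV m, ← sum_gaps h.hA, setl, Finset.sum_union h.disj,
    h.setLR (fun i => m (Sum.inl i))]
  simp only [List.mem_toFinset, Finset.mem_union]
  push_cast
  have : ∀ i, (i ∉ L ++ A ++ R ++ [ρ]) ↔ ¬ (i ∈ A ∨ i ∈ L ++ R ++ [ρ]) := by
    intro i
    simp only [List.mem_append, List.mem_singleton]
    tauto
  simp only [this]

/-- existence of the image -/
theorem rel_ex (hgen : LgenStmt) (hV : (Net.gen (L ++ A ++ R ++ [ρ]) (d + r)).Valid)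
    (h : Ctx L A R ρ q d r SA SB gA gB gaA gaB)
    (m : (Net.gen (L ++ A ++ R ++ [ρ]) (d + r)).flat.V →₀ ℤ)
    (hm : m ∈ (Net.gen (L ++ A ++ R ++ [ρ]) (d + r)).flat.Lam)
    (hp : (genFD L A R ρ q d r SA SB gA gB).pair m = 0) :
    ∃ m', Rel L A R q gaA gaB m m' := by
  obtain ⟨h1, h2, h3⟩ := (lam_gen hgen hV h m).1 hm
  rw [pair_eq h.hA m h1] at hp
  set sA : ℤ := ∑ i ∈ A.toFinset, m (Sum.inl i) with hsA
  obtain ⟨a, ha, ha1, ha2⟩ := h.dA.ex
    (fun i => if i ∈ A.toFinset then m (Sum.inl i) else if i = q then - sA else 0)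
    (fun k => pm m (L.length + k)) (by
      intro i hi
      rw [setA, Finset.mem_insert, not_or] at hi
      dsimp only
      rw [if_neg hi.2, if_neg hi.1]) (by
      rw [setA, Finset.sum_insert h.qA, if_neg h.qA, if_pos rfl]
      have : ∑ i ∈ A.toFinset, (if i ∈ A.toFinset then m (Sum.inl i) else
          if i = q then - sA else 0) = sA :=
        Finset.sum_congr rfl fun i hi => if_pos hi
      rw [this]
      ring) (by
      dsimp only
      rw [if_neg h.qA, if_pos rfl]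
      push_cast
      linarith)
  obtain ⟨b, hb, hb1, hb2⟩ := h.dB.ex
    (fun i => if i ∈ (L ++ R ++ [ρ]).toFinset then m (Sum.inl i) else if i = q then sA else 0)
    (fun k => posB L A R m k + cor L A R m k) (by
      intro i hi
      rw [setB, Finset.mem_insert, not_or] at hi
      dsimp only
      rw [if_neg hi.2, if_neg hi.1]) (by
      rw [setB, Finset.sum_insert h.qB, if_neg h.qB, if_pos rfl]
      have : ∑ i ∈ (L ++ R ++ [ρ]).toFinset, (if i ∈ (L ++ R ++ [ρ]).toFinset then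
          m (Sum.inl i) else if i = q then sA else 0) =
          ∑ i ∈ (L ++ R ++ [ρ]).toFinset, m (Sum.inl i) :=
        Finset.sum_congr rfl fun i hi => if_pos hi
      rw [this, h.setLR (fun i => m (Sum.inl i))]
      exact h2) (by
      rw [h.lenB, Finset.sum_add_distrib, sum_posB, sum_cor h.hB, corC]
      dsimp only
      rw [if_pos (by simp)]
      have e : (r - 1 : ℤ) * m (Sum.inl ρ) = (d + r - 1 : ℤ) * m (Sum.inl ρ) -
        d * m (Sum.inl ρ) := by ring
      have e2 : (d : ℤ) * (sA + (∑ i ∈ (L ++ R).toFinset, m (Sum.inl i) + m (Sum.inl ρ))) = 0 := by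
        rw [h2, mul_zero]
      rw [e]
      linarith)
  refine ⟨_, a, ha, b, hb, ?_, rfl, ?_, ?_, ha2, ?_⟩
  · rw [ha1, hb1, if_neg h.qA, if_pos rfl, if_neg h.qB, if_pos rfl]
    ring
  · intro i hi
    rw [ha1, if_pos (List.mem_toFinset.2 hi)]
  · intro i hi
    rw [hb1, if_pos (List.mem_toFinset.2 hi)]
  · intro k hk
    exact hb2 k (by rw [h.lenB]; exact hk)

theorem lab_eqA (h : Ctx L A R ρ q d r SA SB gA gB gaA gaB) {a a' : SA.flat.V →₀ ℤ}
    (ha : a ∈ SA.flat.Lam) (ha' : a' ∈ SA.flat.Lam)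
    (he : ∀ i ∈ A, a (Sum.inl i) = a' (Sum.inl i)) : ∀ i, a (Sum.inl i) = a' (Sum.inl i) := by
  refine lab_eq (s := (A ++ [q]).toFinset) (q := q) (by simp) (h.dA.lab a ha) (h.dA.lab a' ha') ?_
  intro i hi
  by_cases hiA : i ∈ A
  · exact he i hiA
  · have : i ∉ (A ++ [q]).toFinset := by
      rw [setA, Finset.mem_insert, List.mem_toFinset, not_or]
      exact ⟨hi, hiA⟩
    rw [h.dA.supp a ha i this, h.dA.supp a' ha' i this]

theorem lab_eqB (h : Ctx L A R ρ q d r SA SB gA gB gaA gaB) {b b' : SB.flat.V →₀ ℤ}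
    (hb : b ∈ SB.flat.Lam) (hb' : b' ∈ SB.flat.Lam)
    (he : ∀ i ∈ L ++ R ++ [ρ], b (Sum.inl i) = b' (Sum.inl i)) :
    ∀ i, b (Sum.inl i) = b' (Sum.inl i) := by
  refine lab_eq (s := (L ++ [q] ++ R ++ [ρ]).toFinset) (q := q) (by simp) (h.dB.lab b hb)
    (h.dB.lab b' hb') ?_
  intro i hi
  by_cases hiA : i ∈ L ++ R ++ [ρ]
  · exact he i hiA
  · have : i ∉ (L ++ [q] ++ R ++ [ρ]).toFinset := by
      rw [setB, Finset.mem_insert, List.mem_toFinset, not_or]
      exact ⟨hi, hiA⟩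
    rw [h.dB.supp b hb i this, h.dB.supp b' hb' i this]

/-- uniqueness of the image -/
theorem rel_uniq (h : Ctx L A R ρ q d r SA SB gA gB gaA gaB)
    {m : (Net.gen (L ++ A ++ R ++ [ρ]) (d + r)).flat.V →₀ ℤ}
    {m' m'' : (Net.tsum SA SB q).flat.V →₀ ℤ}
    (h1 : Rel L A R q gaA gaB m m') (h2 : Rel L A R q gaA gaB m m'') : m' = m'' := by
  obtain ⟨a, ha, b, hb, hq0, rfl, hlA, hlB, hgA, hgB⟩ := h1
  obtain ⟨a', ha', b', hb', hq0', rfl, hlA', hlB', hgA', hgB'⟩ := h2
  have e1 : a = a' := h.dA.inj a ha a' ha' (lab_eqA h ha ha' fun i hi => by rw [hlA i hi, hlA' i hi])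
    (fun k hk => by rw [hgA k hk, hgA' k hk])
  have e2 : b = b' := h.dB.inj b hb b' hb' (lab_eqB h hb hb' fun i hi => by rw [hlB i hi, hlB' i hi])
    (fun k hk => by
      rw [h.lenB] at hk
      rw [hgB k hk, hgB' k hk])
  rw [e1, e2]

theorem vt_inl (a : SA.flat.V →₀ ℤ) (b : SB.flat.V →₀ ℤ) (i : ℕ) :
    (a.mapDomain (vtL SA SB q) + b.mapDomain (vtR SA SB q) : (Net.tsum SA SB q).flat.V →₀ ℤ)
      (Sum.inl i) = a (Sum.inl i) + b (Sum.inl i) := by
  rw [Finsupp.add_apply]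
  congr 1
  · exact Finsupp.mapDomain_apply (vtL SA SB q).injective a (Sum.inl i)
  · exact Finsupp.mapDomain_apply (vtR SA SB q).injective b (Sum.inl i)

theorem vt_inrl (a : SA.flat.V →₀ ℤ) (b : SB.flat.V →₀ ℤ) (g : SA.G) :
    (a.mapDomain (vtL SA SB q) + b.mapDomain (vtR SA SB q) : (Net.tsum SA SB q).flat.V →₀ ℤ)
      (Sum.inr (show (Net.tsum SA SB q).G from Sum.inl g)) = a (Sum.inr g) := by
  rw [Finsupp.add_apply]
  have e1 := Finsupp.mapDomain_apply (vtL SA SB q).injective a (Sum.inr g)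
  have e2 : (b.mapDomain (vtR SA SB q) : (Net.tsum SA SB q).flat.V →₀ ℤ)
      (Sum.inr (show (Net.tsum SA SB q).G from Sum.inl g)) = 0 := by
    apply Finsupp.mapDomain_of_notMem_range
    rintro ⟨(i | k), hk⟩
    · cases hk
    · cases hk
  rw [e2, add_zero]
  exact e1

theorem vt_inrr (a : SA.flat.V →₀ ℤ) (b : SB.flat.V →₀ ℤ) (g : SB.G) :
    (a.mapDomain (vtL SA SB q) + b.mapDomain (vtR SA SB q) : (Net.tsum SA SB q).flat.V →₀ ℤ)
      (Sum.inr (show (Net.tsum SA SB q).G from Sum.inr g)) = b (Sum.inr g) := by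
  rw [Finsupp.add_apply]
  have e1 := Finsupp.mapDomain_apply (vtR SA SB q).injective b (Sum.inr g)
  have e2 : (a.mapDomain (vtL SA SB q) : (Net.tsum SA SB q).flat.V →₀ ℤ)
      (Sum.inr (show (Net.tsum SA SB q).G from Sum.inr g)) = 0 := by
    apply Finsupp.mapDomain_of_notMem_range
    rintro ⟨(i | k), hk⟩
    · cases hk
    · cases hk
  rw [e2, zero_add]
  exact e1

/-- injectivity -/
theorem rel_inj (hgen : LgenStmt) (hV : (Net.gen (L ++ A ++ R ++ [ρ]) (d + r)).Valid)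
    (h : Ctx L A R ρ q d r SA SB gA gB gaA gaB)
    {m n : (Net.gen (L ++ A ++ R ++ [ρ]) (d + r)).flat.V →₀ ℤ}
    (hm : m ∈ (Net.gen (L ++ A ++ R ++ [ρ]) (d + r)).flat.Lam)
    (hn : n ∈ (Net.gen (L ++ A ++ R ++ [ρ]) (d + r)).flat.Lam)
    {m' : (Net.tsum SA SB q).flat.V →₀ ℤ}
    (h1 : Rel L A R q gaA gaB m m') (h2 : Rel L A R q gaA gaB n m') : m = n := by
  obtain ⟨a, ha, b, hb, hq0, hm', hlA, hlB, hgA, hgB⟩ := h1
  obtain ⟨a', ha', b', hb', hq0', hn', hlA', hlB', hgA', hgB'⟩ := h2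
  have hab := hm'.symm.trans hn'
  have hdisj := Finset.disjoint_left.1 h.disj
  have hA1 : ∀ i ∈ A, a (Sum.inl i) = a' (Sum.inl i) := by
    intro i hi
    have e := DFunLike.congr_fun hab (Sum.inl i)
    rw [vt_inl, vt_inl] at e
    have hi' : i ∉ (L ++ [q] ++ R ++ [ρ]).toFinset := by
      rw [setB, Finset.mem_insert, not_or]
      refine ⟨?_, hdisj (List.mem_toFinset.2 hi)⟩
      rintro rfl
      exact h.qA (List.mem_toFinset.2 hi)
    rwa [h.dB.supp b hb i hi', h.dB.supp b' hb' i hi', add_zero, add_zero] at e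
  have hB1 : ∀ i ∈ L ++ R ++ [ρ], b (Sum.inl i) = b' (Sum.inl i) := by
    intro i hi
    have e := DFunLike.congr_fun hab (Sum.inl i)
    rw [vt_inl, vt_inl] at e
    have hi' : i ∉ (A ++ [q]).toFinset := by
      rw [setA, Finset.mem_insert, not_or]
      refine ⟨?_, fun h' => hdisj h' (List.mem_toFinset.2 hi)⟩
      rintro rfl
      exact h.qB (List.mem_toFinset.2 hi)
    rwa [h.dA.supp a ha i hi', h.dA.supp a' ha' i hi', zero_add, zero_add] at e
  have e1 : a = a' := by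
    ext v
    rcases v with i | g
    · exact lab_eqA h ha ha' hA1 i
    · have e := DFunLike.congr_fun hab (Sum.inr (show (Net.tsum SA SB q).G from Sum.inl g))
      rwa [vt_inrl, vt_inrl] at e
  have e2 : b = b' := by
    ext v
    rcases v with i | g
    · exact lab_eqB h hb hb' hB1 i
    · have e := DFunLike.congr_fun hab (Sum.inr (show (Net.tsum SA SB q).G from Sum.inr g))
      rwa [vt_inrr, vt_inrr] at e
  subst e1 e2
  have hlab : ∀ i, m (Sum.inl i) = n (Sum.inl i) := by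
    intro i
    by_cases hiA : i ∈ A
    · rw [← hlA i hiA, hlA' i hiA]
    by_cases hiB : i ∈ L ++ R ++ [ρ]
    · rw [← hlB i hiB, hlB' i hiB]
    have hi : i ∉ (L ++ A ++ R ++ [ρ]).toFinset := by
      rw [setl, Finset.mem_union, not_or, List.mem_toFinset, List.mem_toFinset]
      exact ⟨hiA, hiB⟩
    rw [((lam_gen hgen hV h m).1 hm).1 i hi, ((lam_gen hgen hV h n).1 hn).1 i hi]
  have hcor : ∀ k, cor L A R m k = cor L A R n k := by
    intro k
    unfold cor corC
    simp only [hlab]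
  have hpos : ∀ k < L.length + R.length, posB L A R m k = posB L A R n k := by
    intro k hk
    have e3 := hgB k hk
    have e4 := hgB' k hk
    rw [hcor] at e3
    linarith
  have hpm : ∀ k < L.length + (A.length - 1) + R.length, pm m k = pm n k := by
    intro k hk
    by_cases h1 : k < L.length
    · have := hpos k (by omega)
      unfold posB at this
      rwa [if_pos h1] at this
    by_cases h2 : k < L.length + (A.length - 1)
    · have e3 := hgA (k - L.length) (by omega)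
      have e4 := hgA' (k - L.length) (by omega)
      rw [e3] at e4
      rwa [show L.length + (k - L.length) = k by omega] at e4
    · have := hpos (k - (A.length - 1)) (by omega)
      unfold posB at this
      rwa [if_neg (by omega), show k - (A.length - 1) + (A.length - 1) = k by omega] at this
  ext v
  rcases v with i | g
  · exact hlab i
  · have hg := (show Fin ((L ++ A ++ R ++ [ρ]).length - 2) from g).2
    have e3 := hpm (show Fin ((L ++ A ++ R ++ [ρ]).length - 2) from g).1 (by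
      rw [← len_l (ρ := ρ) h.hA]; exact hg)
    unfold pm at e3
    rw [dif_pos hg, dif_pos hg] at e3
    exact e3

/-- surjectivity -/
theorem rel_surj (hgen : LgenStmt) (hV : (Net.gen (L ++ A ++ R ++ [ρ]) (d + r)).Valid)
    (h : Ctx L A R ρ q d r SA SB gA gB gaA gaB)
    {a : SA.flat.V →₀ ℤ} (ha : a ∈ SA.flat.Lam) {b : SB.flat.V →₀ ℤ} (hb : b ∈ SB.flat.Lam)
    (hq0 : a (Sum.inl q) + b (Sum.inl q) = 0) :
    ∃ m : (Net.gen (L ++ A ++ R ++ [ρ]) (d + r)).flat.V →₀ ℤ,
      m ∈ (Net.gen (L ++ A ++ R ++ [ρ]) (d + r)).flat.Lam ∧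
      (genFD L A R ρ q d r SA SB gA gB).pair m = 0 ∧
      Rel L A R q gaA gaB m (a.mapDomain (vtL SA SB q) + b.mapDomain (vtR SA SB q)) := by
  have hdisj := Finset.disjoint_left.1 h.disj
  have hlen := len_l (L := L) (R := R) (ρ := ρ) h.hA
  obtain ⟨m, hm1, hm2⟩ := exists_vec (G := (Net.gen (L ++ A ++ R ++ [ρ]) (d + r)).G)
    (L ++ A ++ R ++ [ρ]).toFinset
    (fun i => if i ∈ A.toFinset then a (Sum.inl i) else
      if i ∈ (L ++ R ++ [ρ]).toFinset then b (Sum.inl i) else 0) (by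
      intro i hi
      rw [setl, Finset.mem_union, not_or] at hi
      dsimp only
      rw [if_neg hi.1, if_neg hi.2])
    (fun g => if (show Fin ((L ++ A ++ R ++ [ρ]).length - 2) from g).1 < L.length then
        gaB b (show Fin ((L ++ A ++ R ++ [ρ]).length - 2) from g).1 -
          (if (show Fin ((L ++ A ++ R ++ [ρ]).length - 2) from g).1 = 0 then
            -(d * ∑ i ∈ (L ++ R).toFinset, b (Sum.inl i)) else 0)
      else if (show Fin ((L ++ A ++ R ++ [ρ]).length - 2) from g).1 < L.length + (A.length - 1) then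
        gaA a ((show Fin ((L ++ A ++ R ++ [ρ]).length - 2) from g).1 - L.length)
      else gaB b ((show Fin ((L ++ A ++ R ++ [ρ]).length - 2) from g).1 - (A.length - 1)) -
          (if (show Fin ((L ++ A ++ R ++ [ρ]).length - 2) from g).1 - (A.length - 1) = 0 then
            -(d * ∑ i ∈ (L ++ R).toFinset, b (Sum.inl i)) else 0))
  have hpm : ∀ k < L.length + (A.length - 1) + R.length, pm (r := d + r) m k =
      if k < L.length then
        gaB b k - (if k = 0 then -(d * ∑ i ∈ (L ++ R).toFinset, b (Sum.inl i)) else 0)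
      else if k < L.length + (A.length - 1) then gaA a (k - L.length)
      else gaB b (k - (A.length - 1)) -
          (if k - (A.length - 1) = 0 then
            -(d * ∑ i ∈ (L ++ R).toFinset, b (Sum.inl i)) else 0) := by
    intro k hk
    rw [pm, dif_pos (by omega)]
    exact hm2 ⟨k, by omega⟩
  have hlA : ∀ i ∈ A, a (Sum.inl i) = m (Sum.inl i) := by
    intro i hi
    rw [hm1, if_pos (List.mem_toFinset.2 hi)]
  have hlB : ∀ i ∈ L ++ R ++ [ρ], b (Sum.inl i) = m (Sum.inl i) := by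
    intro i hi
    rw [hm1, if_neg (fun h' => hdisj h' (List.mem_toFinset.2 hi)),
      if_pos (List.mem_toFinset.2 hi)]
  have hsA : ∑ i ∈ A.toFinset, m (Sum.inl i) = ∑ i ∈ A.toFinset, a (Sum.inl i) :=
    Finset.sum_congr rfl fun i hi => (hlA i (List.mem_toFinset.1 hi)).symm
  have hsB : ∑ i ∈ (L ++ R).toFinset, m (Sum.inl i) = ∑ i ∈ (L ++ R).toFinset, b (Sum.inl i) :=
    Finset.sum_congr rfl fun i hi => (hlB i (List.mem_append_left _
      (List.mem_toFinset.1 hi))).symm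
  have hcor : ∀ k, cor (d := d) (r := r) L A R m k =
      if k = 0 then -(d * ∑ i ∈ (L ++ R).toFinset, b (Sum.inl i)) else 0 := by
    intro k
    rw [cor, corC, hsB]
  have hrA : ∀ k < A.length - 1, gaA a k = pm (r := d + r) m (L.length + k) := by
    intro k hk
    rw [hpm _ (by omega), if_neg (by omega), if_pos (by omega), Nat.add_sub_cancel_left]
  have hrB : ∀ k < L.length + R.length, gaB b k = posB (d := d) (r := r) L A R m k + cor (d := d) (r := r) L A R m k := by
    intro k hk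
    rw [hcor, posB]
    by_cases h1 : k < L.length
    · rw [if_pos h1, hpm _ (by omega), if_pos h1]
      ring
    · rw [if_neg h1, hpm _ (by omega), if_neg (by omega), if_neg (by omega),
        Nat.add_sub_cancel]
      ring
  have la := h.dA.lab a ha
  have lb := h.dB.lab b hb
  rw [setA, Finset.sum_insert h.qA] at la
  rw [setB, Finset.sum_insert h.qB, h.setLR (fun i => b (Sum.inl i))] at lb
  have gapA := h.dA.gap a ha
  have gapB := h.dB.gap b hb
  rw [h.lenB] at gapB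
  have eA : ∑ k ∈ Finset.range (A.length - 1), gaA a k =
      ∑ k ∈ Finset.range (A.length - 1), pm (r := d + r) m (L.length + k) :=
    Finset.sum_congr rfl fun k hk => hrA k (Finset.mem_range.1 hk)
  have eB : ∑ k ∈ Finset.range (L.length + R.length), gaB b k =
      ∑ k ∈ Finset.range L.length, pm (r := d + r) m k +
      ∑ k ∈ Finset.range R.length, pm (r := d + r) m (L.length + (A.length - 1) + k) +
        corC (d := d) (r := r) L A R m := by
    rw [← sum_posB, ← sum_cor h.hB, ← Finset.sum_add_distrib]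
    exact Finset.sum_congr rfl fun k hk => hrB k (Finset.mem_range.1 hk)
  rw [eA] at gapA
  rw [eB, corC, hsB] at gapB
  have hρ : b (Sum.inl ρ) = m (Sum.inl ρ) := hlB ρ (by simp)
  have hsupp : ∀ i : ℕ, i ∉ (L ++ A ++ R ++ [ρ]).toFinset → m (Sum.inl i) = 0 := by
    intro i hi
    rw [setl, Finset.mem_union, not_or] at hi
    rw [hm1, if_neg hi.1, if_neg hi.2]
  push_cast at gapA
  refine ⟨m, (lam_gen hgen hV h m).2 ⟨hsupp, ?_, ?_⟩, ?_, a, ha, b, hb, hq0, rfl, hlA, hlB, hrA, hrB⟩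
  · rw [hsA, hsB, ← hρ]
    linarith
  · rw [← hρ]
    have e : (d : ℤ) * (b (Sum.inl q) + (∑ i ∈ (L ++ R).toFinset, b (Sum.inl i) +
      b (Sum.inl ρ))) = 0 := by rw [lb, mul_zero]
    have e2 : (d : ℤ) * (a (Sum.inl q) + b (Sum.inl q)) = 0 := by rw [hq0, mul_zero]
    nlinarith
  · rw [pair_eq h.hA m hsupp, hsA]
    have e : (d : ℤ) * (a (Sum.inl q) + ∑ i ∈ A.toFinset, a (Sum.inl i)) = 0 := by
      rw [la, mul_zero]
    nlinarith

theorem rel_add (h : Ctx L A R ρ q d r SA SB gA gB gaA gaB)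
    {m n : (Net.gen (L ++ A ++ R ++ [ρ]) (d + r)).flat.V →₀ ℤ}
    {m' n' : (Net.tsum SA SB q).flat.V →₀ ℤ}
    (h1 : Rel L A R q gaA gaB m m') (h2 : Rel L A R q gaA gaB n n') :
    Rel L A R q gaA gaB (m + n) (m' + n') := by
  obtain ⟨a, ha, b, hb, hq0, rfl, hlA, hlB, hgA, hgB⟩ := h1
  obtain ⟨a', ha', b', hb', hq0', rfl, hlA', hlB', hgA', hgB'⟩ := h2
  refine ⟨a + a', add_mem ha ha', b + b', add_mem hb hb', ?_, ?_, ?_, ?_, ?_, ?_⟩
  · rw [Finsupp.add_apply, Finsupp.add_apply]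
    linarith
  · rw [Finsupp.mapDomain_add, Finsupp.mapDomain_add]
    abel
  · intro i hi
    rw [Finsupp.add_apply, Finsupp.add_apply, hlA i hi, hlA' i hi]
  · intro i hi
    rw [Finsupp.add_apply, Finsupp.add_apply, hlB i hi, hlB' i hi]
  · intro k hk
    rw [h.dA.add, pm_add, hgA k hk, hgA' k hk]
  · intro k hk
    rw [h.dB.add, hgB k hk, hgB' k hk]
    have e1 : posB L A R (m + n) k = posB L A R m k + posB L A R n k := pm_add _ _ _
    have e2 : cor L A R (m + n) k = cor L A R m k + cor L A R n k := by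
      unfold cor corC
      split_ifs
      · simp only [Finsupp.add_apply, Finset.sum_add_distrib]
        ring
      · rfl
    rw [e1, e2]
    ring

/-- quotients of gap values -/
theorem vB_quot (hlts : LtsStmt) (hT : (Net.tsum SA SB q).Valid)
    (h : Ctx L A R ρ q d r SA SB gA gB gaA gaB) {k : ℕ} (hk : k < L.length + R.length) :
    vB SA q gB k / vB SA q gB 0 ∈ (Net.tsum SA SB q).flat.gapLamField := by
  obtain ⟨b, hb, hb1, hb2⟩ := h.dB.ex (fun _ => 0)
    (fun j => (if j = k then 1 else 0) - (if j = 0 then 1 else 0)) (fun _ _ => rfl)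
    (by simp) (by
      rw [h.lenB, Finset.sum_sub_distrib, Finset.sum_ite_eq', Finset.sum_ite_eq',
        if_pos (Finset.mem_range.2 hk), if_pos (Finset.mem_range.2 h.hB)]
      simp)
  rw [h.lenB] at hb2
  have hm : (0 : SA.flat.V →₀ ℤ).mapDomain (vtL SA SB q) + b.mapDomain (vtR SA SB q) ∈
      (Net.tsum SA SB q).flat.Lam := by
    rw [hlts SA SB q hT]
    exact ⟨0, zero_mem _, b, hb, by rw [hb1]; rfl, rfl⟩
  refine IntermediateField.subset_adjoin _ _ ⟨_, hm, ?_, ?_⟩
  · intro i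
    rw [vt_inl, hb1]
    rfl
  · rw [Finsupp.mapDomain_zero, zero_add, mono_eq, lmono_mapDomain, h.dB.prod _ _ b hb, h.lenB]
    have e1 : ∏ i ∈ (L ++ [q] ++ R ++ [ρ]).toFinset, (xx (vtR SA SB q (Sum.inl i)) :
      (Net.tsum SA SB q).flat.F) ^ b (Sum.inl i) = 1 := by
      refine Finset.prod_eq_one fun i _ => ?_
      rw [hb1, zpow_zero]
    have e2 : ∏ j ∈ Finset.range (L.length + R.length), (eval₂ (Nat.castRingHom _)
      (fun h => (xx (vtR SA SB q (Sum.inr h)) : (Net.tsum SA SB q).flat.F)) (gB j)) ^ gaB b j =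
      vB SA q gB k / vB SA q gB 0 := by
      have e3 : ∀ j ∈ Finset.range (L.length + R.length), (eval₂ (Nat.castRingHom _)
        (fun h => (xx (vtR SA SB q (Sum.inr h)) : (Net.tsum SA SB q).flat.F)) (gB j)) ^ gaB b j =
        (if j = k then vB SA q gB j else 1) / (if j = 0 then vB SA q gB j else 1) := by
        intro j hj
        rw [Finset.mem_range] at hj
        rw [hb2 j hj]
        show vB SA q gB j ^ _ = _
        rw [zpow_sub₀ (h.vB j hj)]
        congr 1
        · split_ifs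
          · rw [zpow_one]
          · rw [zpow_zero]
        · split_ifs
          · rw [zpow_one]
          · rw [zpow_zero]
      rw [Finset.prod_congr rfl e3, Finset.prod_div_distrib, Finset.prod_ite_eq',
        Finset.prod_ite_eq', if_pos (Finset.mem_range.2 hk), if_pos (Finset.mem_range.2 h.hB)]
    rw [e1, e2, one_mul]

theorem gvR_sum {ι : Type} (s : Finset ι) (f : ι → MvPolynomial SB.G ℕ) :
    gvR SA SB q (∑ i ∈ s, f i) = ∑ i ∈ s, gvR SA SB q (f i) := by
  unfold gvR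
  rw [← coe_eval₂Hom, map_sum]

theorem kap_mem (hlts : LtsStmt) (hT : (Net.tsum SA SB q).Valid)
    (h : Ctx L A R ρ q d r SA SB gA gB gaA gaB) (i : ℕ) (hi : i ∈ (L ++ R).toFinset) :
    kap L R SA q d gB i * vB SA q gB 0 ^ d ∈ (Net.tsum SA SB q).flat.gapLamField := by
  have key : ∀ s : Finset ℕ, (∀ k ∈ s, k < L.length + R.length) →
      (gvR SA SB q (∑ k ∈ s, gB k) ^ d)⁻¹ * vB SA q gB 0 ^ d ∈
        (Net.tsum SA SB q).flat.gapLamField := by
    intro s hs
    have e : (gvR SA SB q (∑ k ∈ s, gB k) ^ d)⁻¹ * vB SA q gB 0 ^ d =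
        ((∑ k ∈ s, vB SA q gB k / vB SA q gB 0) ^ d)⁻¹ := by
      rw [← Finset.sum_div, gvR_sum, div_pow, inv_div, div_eq_mul_inv, mul_comm]
      rfl
    rw [e]
    exact inv_mem (pow_mem (sum_mem fun k hk => vB_quot hlts hT h (hs k hk)) _)
  unfold kap
  by_cases hL : i ∈ L
  · rw [if_pos hL]
    apply key
    intro k hk
    rw [Finset.mem_Ico] at hk
    omega
  · have hR : i ∈ R := by
      rw [List.mem_toFinset, List.mem_append] at hi
      tauto
    rw [if_neg hL, if_pos hR]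
    apply key
    intro k hk
    rw [Finset.mem_Ico] at hk
    have := List.idxOf_lt_length_of_mem hR
    omega

theorem exists_one (hgen : LgenStmt) (hV : (Net.gen (L ++ A ++ R ++ [ρ]) (d + r)).Valid)
    (h : Ctx L A R ρ q d r SA SB gA gB gaA gaB) :
    ∃ m ∈ (Net.gen (L ++ A ++ R ++ [ρ]) (d + r)).flat.Lam,
      (genFD L A R ρ q d r SA SB gA gB).pair m = 1 := by
  have hlen := len_l (L := L) (R := R) (ρ := ρ) h.hA
  have hA := h.hA
  have hB := h.hB
  obtain ⟨o, ho, ho2⟩ : ∃ o, (o < L.length ∨ (L.length + (A.length - 1) ≤ o ∧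
      o < L.length + (A.length - 1) + R.length)) ∧ True := by
    by_cases hL : 1 ≤ L.length
    · exact ⟨0, Or.inl hL, trivial⟩
    · exact ⟨L.length + (A.length - 1), Or.inr ⟨le_rfl, by omega⟩, trivial⟩
  obtain ⟨m, hm1, hm2⟩ := exists_vec (G := (Net.gen (L ++ A ++ R ++ [ρ]) (d + r)).G)
    (L ++ A ++ R ++ [ρ]).toFinset (fun _ => 0) (fun _ _ => rfl)
    (fun g => (if (show Fin ((L ++ A ++ R ++ [ρ]).length - 2) from g).1 = L.length then 1 else 0) -
      (if (show Fin ((L ++ A ++ R ++ [ρ]).length - 2) from g).1 = o then 1 else 0))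
  have hpm : ∀ k < L.length + (A.length - 1) + R.length, pm (r := d + r) m k =
      (if k = L.length then 1 else 0) - (if k = o then 1 else 0) := by
    intro k hk
    rw [pm, dif_pos (by omega)]
    exact hm2 ⟨k, by omega⟩
  have e2 : ∑ k ∈ Finset.range (A.length - 1), pm (r := d + r) m (L.length + k) = 1 := by
    rw [Finset.sum_eq_single 0]
    · rw [hpm _ (by omega), if_pos (by omega), if_neg (by omega)]
      rfl
    · intro k hk hk0
      rw [Finset.mem_range] at hk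
      rw [hpm _ (by omega), if_neg (by omega), if_neg (by omega)]
      rfl
    · intro h0
      exact absurd (Finset.mem_range.2 (by omega)) h0
  have e1 : ∑ k ∈ Finset.range (L.length + (A.length - 1) + R.length), pm (r := d + r) m k = 0 := by
    rw [Finset.sum_congr rfl fun k hk => hpm k (Finset.mem_range.1 hk), Finset.sum_sub_distrib,
      Finset.sum_ite_eq', Finset.sum_ite_eq', if_pos (Finset.mem_range.2 (by omega)),
      if_pos (Finset.mem_range.2 (by omega))]
    rfl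
  rw [Finset.sum_range_add, Finset.sum_range_add] at e1
  have hsupp : ∀ i : ℕ, i ∉ (L ++ A ++ R ++ [ρ]).toFinset → m (Sum.inl i) = 0 :=
    fun i _ => hm1 i
  refine ⟨m, (lam_gen hgen hV h m).2 ⟨hsupp, ?_, ?_⟩, ?_⟩
  · simp [hm1]
  · rw [e1, hm1]
    simp
  · rw [pair_eq h.hA m hsupp, e2]
    simp [hm1]

end main

theorem vB_ne {L R : List ℕ} {ρ q r : ℕ} {SA SB : Net} {gB : ℕ → MvPolynomial SB.G ℕ}
    (hg : VtxG (L ++ [q] ++ R ++ [ρ]) r SB gB) :
    ∀ k < L.length + R.length, vB SA q gB k ≠ 0 := by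
  intro k hk
  obtain ⟨-, -, -, -, hg⟩ := hg
  rcases hg with ⟨e, he⟩ | ⟨h3, -, hg0⟩
  · have hk' : k < (L ++ [q] ++ R ++ [ρ]).length - 2 := by
      simp only [List.length_append, List.length_singleton]
      omega
    have := he ⟨k, hk'⟩
    unfold vB
    rw [show gB k = gB ((⟨k, hk'⟩ : Fin ((L ++ [q] ++ R ++ [ρ]).length - 2)) : ℕ) from rfl, this,
      gvR, eval₂_X]
    exact xx_ne_zero _
  · have : k = 0 := by
      simp only [List.length_append, List.length_singleton] at h3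
      omega
    subst this
    unfold vB
    rw [hg0, gvR, eval₂_one]
    exact one_ne_zero

theorem cg5 (hgen : LgenStmt) (hlts : LtsStmt) (hbw : LbwStmt) (hfac : FacetStmt) : Cg5Stmt := by
  classical
  intro L A R ρ q d r SA SB gA gB hG
  have hV := hG.valid
  have hnd : (L ++ A ++ R ++ [ρ]).Nodup := hV.1
  have hT : (Net.tsum SA SB q).Valid :=
    (hfac _ _ hV (Net.Facet.gen L A R ρ q d r SA SB hG.hq hG.hA hG.hB)).1
  have lenvtx : ∀ (l : List ℕ) (r : ℕ) (S : Net), Net.IsVtx l r S → 3 ≤ l.length := by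
    intro l r S hS
    cases hS with
    | gen h1 h2 => omega
    | black h3 => omega
    | white h3 => omega
  have hA2 := lenvtx _ _ _ hG.hA
  have hB2 := lenvtx _ _ _ hG.hB
  simp only [List.length_append, List.length_singleton] at hA2 hB2
  have hq := hG.hq
  simp only [List.mem_append, List.mem_singleton, not_or] at hq
  have hnd' := hnd
  simp only [List.nodup_append, List.mem_append, List.mem_singleton, List.nodup_cons] at hnd'
  have hndA : (A ++ [q]).Nodup := by
    simp only [List.nodup_append, List.mem_singleton, List.nodup_cons]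
    refine ⟨hnd'.1.1.2.1, by simp, ?_⟩
    rintro a ha b rfl rfl
    exact hq.1.1.2 ha
  have hndB : (L ++ [q] ++ R ++ [ρ]).Nodup := by
    simp only [List.nodup_append, List.mem_append, List.mem_singleton, List.nodup_cons]
    obtain ⟨⟨⟨n1, n2, n3⟩, n4, n5⟩, n6, n7⟩ := hnd'
    refine ⟨⟨⟨n1, by simp, ?_⟩, n4, ?_⟩, n6, ?_⟩
    · rintro a ha b rfl rfl
      exact hq.1.1.1 ha
    · rintro a (ha | rfl) b hb rfl
      · exact n5 a (Or.inl ha) a hb rfl
      · exact hq.1.2 hb
    · rintro a ((ha | rfl) | ha) b rfl rfl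
      · exact n7 a (Or.inl (Or.inl ha)) a rfl rfl
      · exact hq.2 rfl
      · exact n7 a (Or.inr ha) a rfl rfl
  obtain ⟨gaA, dA⟩ := vd hgen hbw A q (d + 1) SA gA hndA hG.hA hG.vA
  obtain ⟨gaB, dB⟩ := vd hgen hbw (L ++ [q] ++ R) ρ r SB gB hndB hG.hB hG.vB
  have h : Ctx L A R ρ q d r SA SB gA gB gaA gaB :=
    ⟨hnd, hG.hq, by omega, by omega, dA, dB, vB_ne hG.vB⟩
  refine ⟨?_, exists_one hgen hV h⟩
  have hex : ∀ m : {m : (Net.gen (L ++ A ++ R ++ [ρ]) (d + r)).flat.V →₀ ℤ //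
      m ∈ (Net.gen (L ++ A ++ R ++ [ρ]) (d + r)).flat.Lam ∧
        (genFD L A R ρ q d r SA SB gA gB).pair m = 0},
      ∃ m' : (Net.tsum SA SB q).flat.Lam, Rel L A R q gaA gaB m.1 m'.1 := by
    intro m
    obtain ⟨m', hm'⟩ := rel_ex hgen hV h m.1 m.2.1 m.2.2
    refine ⟨⟨m', ?_⟩, hm'⟩
    rw [hlts SA SB q hT]
    obtain ⟨a, ha, b, hb, hq0, e, -⟩ := hm'
    exact ⟨a, ha, b, hb, hq0, e⟩
  choose f hf using hex
  have hbij : Function.Bijective f := by
    constructor
    · intro m n hmn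
      apply Subtype.ext
      have h1 := hf m
      rw [hmn] at h1
      exact rel_inj hgen hV h m.2.1 n.2.1 h1 (hf n)
    · intro m'
      obtain ⟨a, ha, b, hb, hq0, e⟩ := (hlts SA SB q hT m'.1).1 m'.2
      obtain ⟨m, hm1, hm2, hm3⟩ := rel_surj hgen hV h ha hb hq0
      rw [← e] at hm3
      refine ⟨⟨m, hm1, hm2⟩, Subtype.ext ?_⟩
      exact rel_uniq h (hf ⟨m, hm1, hm2⟩) hm3
  have hlabel : ∀ m, ∀ i : ℕ, (f m : (Net.tsum SA SB q).flat.V →₀ ℤ) (Sum.inl i) =
      m.1 (Sum.inl i) := by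
    intro m i
    obtain ⟨a, ha, b, hb, hq0, e, hlA, hlB, -, -⟩ := hf m
    rw [e, vt_inl]
    have hdisj := Finset.disjoint_left.1 h.disj
    by_cases hiq : i = q
    · subst hiq
      rw [hq0]
      symm
      apply ((lam_gen hgen hV h m.1).1 m.2.1).1
      rw [List.mem_toFinset]
      exact hG.hq
    by_cases hiA : i ∈ A
    · have hi' : i ∉ (L ++ [q] ++ R ++ [ρ]).toFinset := by
        rw [setB, Finset.mem_insert, not_or]
        exact ⟨hiq, hdisj (List.mem_toFinset.2 hiA)⟩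
      rw [dB.supp b hb i hi', add_zero, hlA i hiA]
    have hi' : i ∉ (A ++ [q]).toFinset := by
      rw [setA, Finset.mem_insert, List.mem_toFinset, not_or]
      exact ⟨hiq, hiA⟩
    rw [dA.supp a ha i hi', zero_add]
    by_cases hiB : i ∈ L ++ R ++ [ρ]
    · exact hlB i hiB
    · have hi2 : i ∉ (L ++ [q] ++ R ++ [ρ]).toFinset := by
        rw [setB, Finset.mem_insert, List.mem_toFinset, not_or]
        exact ⟨hiq, hiB⟩
      rw [dB.supp b hb i hi2]
      symm
      apply ((lam_gen hgen hV h m.1).1 m.2.1).1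
      rw [setl, Finset.mem_union, not_or, List.mem_toFinset, List.mem_toFinset]
      exact ⟨hiA, hiB⟩
  have hratio : ∀ m, (genFD L A R ρ q d r SA SB gA gB).wmono m.1 =
      (Net.tsum SA SB q).flat.mono (f m : (Net.tsum SA SB q).flat.V →₀ ℤ) *
      ∏ i ∈ (L ++ R).toFinset, (kap L R SA q d gB i * vB SA q gB 0 ^ d) ^ m.1 (Sum.inl i) := by
    intro m
    have h0 : vB SA q gB 0 ≠ 0 := h.vB 0 h.hB
    rw [wmono_gen h.hA m.1 ((lam_gen hgen hV h m.1).1 m.2.1).1,
      mono_rel h m.1 (f m) (hf m)]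
    have e : ∏ i ∈ (L ++ R).toFinset, (kap L R SA q d gB i * vB SA q gB 0 ^ d) ^ m.1 (Sum.inl i) =
        (∏ i ∈ (L ++ R).toFinset, kap L R SA q d gB i ^ m.1 (Sum.inl i)) *
          (vB SA q gB 0 ^ corC L A R m.1)⁻¹ := by
      rw [Finset.prod_congr rfl fun i _ => mul_zpow (kap L R SA q d gB i) (vB SA q gB 0 ^ d)
        (m.1 (Sum.inl i)), Finset.prod_mul_distrib]
      congr 1
      rw [corC, zpow_neg, inv_inv, zpow_mul, zpow_natCast, zpow_sum₀ (pow_ne_zero _ h0)]
    rw [e]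
    have h1 : vB SA q gB 0 ^ corC L A R m.1 ≠ 0 := zpow_ne_zero _ h0
    field_simp
  have hmono : ∀ m', (Net.tsum SA SB q).flat.mono m' ≠ 0 := by
    intro m'
    rw [mono_eq]
    exact lmono_ne_zero _ (fun v => xx_ne_zero v) _
  refine ⟨Equiv.ofBijective f hbij, ?_, ?_, ?_, ?_⟩
  · intro a b c hc
    have h1 := rel_add h (hf a) (hf b)
    rw [← hc] at h1
    exact rel_uniq h (hf c) h1
  · intro m
    rw [hratio m]
    show _ / (Net.tsum SA SB q).flat.mono (f m : (Net.tsum SA SB q).flat.V →₀ ℤ) ∈ _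
    rw [mul_div_cancel_left₀ _ (hmono _)]
    exact prod_mem fun i hi => zpow_mem (kap_mem hlts hT h i hi) _
  · intro m
    constructor
    · intro h1 i
      show (f m : (Net.tsum SA SB q).flat.V →₀ ℤ) (Sum.inl i) = 0
      rw [hlabel, h1]
    · intro h1 i
      rw [← hlabel]
      exact h1 i
  · intro m hm
    rw [hratio m]
    show _ = (Net.tsum SA SB q).flat.mono (f m : (Net.tsum SA SB q).flat.V →₀ ℤ)
    rw [Finset.prod_eq_one fun i _ => by rw [hm, zpow_zero], mul_one]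

end ABCT.H85
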